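import Mathlib
import Pool.Agent.H15.G.R_seed8.W608.Rank3

set_option autoImplicit false

/-!
# Points of large multiplicity
-/

namespace Pool.Agent.W611

open Polynomial Pool.Agent.H932R2 Pool.Agent.H932R3 Pool.Agent.H932R7 Pool.Agent.W608

/-- Two ranks for the same points. -/
theorem common {ι : Type} [Fintype ι] {w : ι → ℕ} {T1 T2 : Set (ℕ × ℕ)} {N1 N2 : ℕ}
    (h1 : RkS (PF ℚ w) T1 N1) (h2 : RkS (PF ℚ w) T2 N2) :
    ∃ J ∈ PF ℚ w, RkI J T1 N1 ∧ RkI J T2 N2 := by
  classical
  obtain ⟨e⟩ : Nonempty (ι ≃ Fin (Fintype.card ι)) := ⟨Fintype.equivFin ι⟩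
  have key : ∀ {T : Set (ℕ × ℕ)} {N : ℕ}, RkS (PF ℚ w) T N →
      RkS (PF ℚ (fun i => w (e.symm i))) T N := by
    rintro T N ⟨_, ⟨c, γ, rfl⟩, h⟩
    refine ⟨_, ⟨fun i => c (e.symm i), fun i => γ (e.symm i), rfl⟩, ?_⟩
    refine h.anti ?_
    unfold vIdeal
    refine le_iInf fun a => ?_
    refine iInf_le_of_le (e a) ?_
    beta_reduce
    rw [e.symm_apply_apply]
  obtain ⟨F1, hF1, hF1'⟩ := T_HOP ℚ _ _ _ _ (key h1)
  obtain ⟨F2, hF2, hF2'⟩ := T_HOP ℚ _ _ _ _ (key h2)
  obtain ⟨P, hP⟩ : ∃ P : Fin (Fintype.card ι) × Fin 2 → ℚ, MvPolynomial.aeval P (F1 * F2) ≠ 0 := by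
    by_contra hcon
    push Not at hcon
    refine mul_ne_zero hF1 hF2 (MvPolynomial.funext fun x => ?_)
    rw [map_zero]
    have := hcon x
    rwa [MvPolynomial.aeval_eq_eval] at this
  rw [map_mul] at hP
  have h3 := hF1' P (left_ne_zero_of_mul hP)
  have h4 := hF2' P (right_ne_zero_of_mul hP)
  have hle : vIdeal 1 w (fun a => P (e a, 0)) (fun a => C (P (e a, 1))) ≤
      vIdeal 1 (fun i => w (e.symm i)) (fun i => P (i, 0)) (fun i => C (P (i, 1))) := by
    unfold vIdeal
    refine le_iInf fun i => ?_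
    refine iInf_le_of_le (e.symm i) ?_
    beta_reduce
    rw [e.apply_symm_apply]
  exact ⟨_, ⟨_, _, rfl⟩, h3.anti hle, h4.anti hle⟩

/-- One point. -/
theorem one_point (K : Type) [Field K] [Infinite K] (μ : ℕ) (hμ : 0 < μ) :
    RkS (PF K (fun _ : Unit => μ)) (Tset (μ - 1)) ((μ + 1).choose 2) := by
  classical
  have h0 : RkS (PF K (fun a : {a : Unit // μ < μ} => μ)) (↑(EE (1 - 1) (μ - 1)) : Set (ℕ × ℕ)) 0 :=
    ⟨_, ⟨fun _ => 0, fun _ => 0, rfl⟩, Fin.elim0, fun i => Fin.elim0 i, fun _ _ i => Fin.elim0 i⟩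
  have h1 := t_block K Unit (fun _ : Unit => μ) μ 1 1 0 hμ (fun _ => le_rfl)
    (by
      rw [Nat.card_eq_fintype_card]
      simp) le_rfl h0
  rw [zero_add, one_mul] at h1
  refine RkS.mono ?_ h1
  rintro ⟨i, l⟩ hp
  rw [Finset.mem_coe, Zt, mem_rowsF] at hp
  rw [mem_Tset]
  omega

/-- Adding one point. -/
theorem add_one (K : Type) [Field K] [CharZero K] {ι : Type} [Fintype ι] [DecidableEq ι]
    (w : ι → ℕ) (a : ι) (c N : ℕ) (h : RkS (PF K (Function.update w a 0)) (Tset c) N) :
    RkS (PF K w) (Tset (c + w a)) ((w a + 1).choose 2 + N) := by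
  have : Infinite K := CharZero.infinite K
  rcases Nat.eq_zero_or_pos (w a) with h0 | h0
  · rw [h0]
    have h1 : Function.update w a 0 = w := by
      rw [← h0, Function.update_eq_self]
    rw [h1] at h
    simpa using h
  · obtain ⟨μ, hμ⟩ : ∃ μ, μ = w a := ⟨_, rfl⟩
    rw [← hμ] at h0 ⊢
    have h1 : RkS (PF K (Sum.elim (fun _ : Unit => μ) (Function.update w a 0)))
        (↑(Tfin (c + μ)) : Set (ℕ × ℕ)) ((μ + 1).choose 2 + N) := by
      have h2 := comb (K := K) (fun _ : Unit => μ) (Function.update w a 0) (Tfin (c + μ))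
        (Corner (c + μ) (c + 1)) (c + μ + 1) (Finset.filter_subset _ _) ?_ ?_ ?_ N ?_
      · have h3 : Aw (fun _ : Unit => μ) = (μ + 1).choose 2 := by
          unfold Aw
          simp
        rw [h3] at h2
        exact h2
      · rintro ⟨i, l⟩ hx ⟨i', l'⟩ hx' hxx
        rw [coe_Tfin, mem_Tset] at hx hx'
        simp only at hxx
        have h1 : i = i' := by
          rcases Nat.lt_trichotomy i i' with h | h | h
          · have : (c + μ + 1) * (i + 1) ≤ (c + μ + 1) * i' := Nat.mul_le_mul_left _ h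
            rw [Nat.mul_add] at this
            omega
          · exact h
          · have : (c + μ + 1) * (i' + 1) ≤ (c + μ + 1) * i := Nat.mul_le_mul_left _ h
            rw [Nat.mul_add] at this
            omega
        subst h1
        rw [Prod.mk.injEq]
        exact ⟨rfl, by omega⟩
      · rintro ⟨i, l⟩ hx hx' ⟨i', l'⟩ hy
        have hx1 : i + l ≤ c + μ := by
          have : ((i, l) : ℕ × ℕ) ∈ (↑(Tfin (c + μ)) : Set (ℕ × ℕ)) := hx
          rwa [coe_Tfin, mem_Tset] at this
        rw [mem_Corner] at hx' hy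
        have h1 : (c + μ + 1) * (i + 1) ≤ (c + μ + 1) * i' := Nat.mul_le_mul_left _ (by omega)
        rw [Nat.mul_add] at h1
        simp only
        omega
      · have h3 : Aw (fun _ : Unit => μ) = (μ + 1).choose 2 := by
          unfold Aw
          simp
        rw [h3]
        exact RkS.compressX (T_STAB K _ _) (c + μ + 1) (fun k hk _ => Nat.cast_ne_zero.2 (by omega))
          (corner_dom (by omega) (by omega)) (one_point K μ h0)
      · intro R hR _
        refine RkS.mono ?_ h
        rintro ⟨i, l⟩ hp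
        rw [mem_Tset] at hp
        refine ⟨?_, fun hmem => ?_⟩
        · rw [coe_Tfin, mem_Tset]
          omega
        · have h4 := hR hmem
          rw [mem_Corner] at h4
          omega
    rw [← coe_Tfin]
    refine (t_tr K (Unit ⊕ ι) ι (Sum.elim (fun _ : Unit => μ) (Function.update w a 0)) w
      ⟨fun x => Sum.elim (fun _ => a) id x.1, ?_⟩ ?_ (Tfin (c + μ))).2 _ h1
    · rintro ⟨x | x, hx⟩ ⟨y | y, hy⟩ hxy
      · rfl
      · exfalso
        simp only [Sum.elim_inl, Sum.elim_inr, id] at hxy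
        rw [← hxy] at hy
        simp at hy
      · exfalso
        simp only [Sum.elim_inl, Sum.elim_inr, id] at hxy
        rw [hxy] at hx
        simp at hx
      · simp only [Sum.elim_inr, id] at hxy
        subst hxy
        rfl
    · rintro ⟨x | x, hx⟩
      · exact hμ.le
      · change Function.update w a 0 x ≤ w x
        by_cases hxa : x = a
        · subst hxa
          simp
        · rw [Function.update_of_ne hxa]

/-- Adding several points. -/
theorem add_set (K : Type) [Field K] [CharZero K] {ι : Type} [Fintype ι] [DecidableEq ι]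
    (w : ι → ℕ) (S : Finset ι) : ∀ (c N : ℕ),
    RkS (PF K (fun a => if a ∈ S then 0 else w a)) (Tset c) N →
      RkS (PF K w) (Tset (c + ∑ a ∈ S, w a)) (∑ a ∈ S, (w a + 1).choose 2 + N) := by
  induction S using Finset.induction_on with
  | empty =>
    intro c N h
    simpa using h
  | insert a S ha ih =>
    intro c N h
    have h1 : (fun x => if x ∈ insert a S then 0 else w x) =
        Function.update (fun x => if x ∈ S then 0 else w x) a 0 := by
      funext x
      by_cases hx : x = a
      · subst hx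
        simp
      · rw [Function.update_of_ne hx]
        simp [hx]
    rw [h1] at h
    have h2 := add_one K (fun x => if x ∈ S then 0 else w x) a c N h
    have h3 : (if a ∈ S then 0 else w a) = w a := if_neg ha
    rw [h3] at h2
    have h4 := ih _ _ h2
    rw [Finset.sum_insert ha, Finset.sum_insert ha]
    have e1 : c + (w a + ∑ x ∈ S, w x) = c + w a + ∑ x ∈ S, w x := by ring
    have e2 : (w a + 1).choose 2 + ∑ x ∈ S, (w x + 1).choose 2 + N =
      ∑ x ∈ S, (w x + 1).choose 2 + ((w a + 1).choose 2 + N) := by ring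
    rw [e1, e2]
    exact h4

/-- The conditions at the points of multiplicity at most `m`. -/
def Asm {ι : Type} [Fintype ι] (m : ℕ) (w : ι → ℕ) : ℕ :=
  ∑ a, if w a ≤ m then (w a + 1).choose 2 else 0

/-- The sum of the multiplicities larger than `m`. -/
def Slg {ι : Type} [Fintype ι] (m : ℕ) (w : ι → ℕ) : ℕ :=
  ∑ a, if w a ≤ m then 0 else w a

/-- The conditions at the points of multiplicity larger than `m`. -/
def Alg {ι : Type} [Fintype ι] (m : ℕ) (w : ι → ℕ) : ℕ :=
  ∑ a, if w a ≤ m then 0 else (w a + 1).choose 2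

theorem Asm_add_Alg {ι : Type} [Fintype ι] (m : ℕ) (w : ι → ℕ) : Asm m w + Alg m w = Aw w := by
  unfold Asm Alg Aw
  rw [← Finset.sum_add_distrib]
  refine Finset.sum_congr rfl fun a _ => ?_
  split_ifs <;> omega

theorem Alg_le {ι : Type} [Fintype ι] (m : ℕ) (w : ι → ℕ) :
    2 * Alg m w ≤ Slg m w * (Slg m w + 1) := by
  classical
  have h1 : ∀ f : ι → ℕ, 2 * ∑ a, (f a + 1).choose 2 ≤ (∑ a, f a) * (∑ a, f a + 1) := by
    intro f
    have h2 : ∀ S : Finset ι, 2 * ∑ a ∈ S, (f a + 1).choose 2 ≤
        (∑ a ∈ S, f a) * (∑ a ∈ S, f a + 1) := by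
      intro S
      induction S using Finset.induction_on with
      | empty => simp
      | insert a S ha ih =>
        rw [Finset.sum_insert ha, Finset.sum_insert ha]
        have := two_choose' (f a)
        nlinarith [Nat.zero_le (f a * ∑ x ∈ S, f x)]
    exact h2 Finset.univ
  have h2 := h1 (fun a => if w a ≤ m then 0 else w a)
  unfold Alg Slg
  refine le_trans (le_of_eq ?_) h2
  congr 1
  refine Finset.sum_congr rfl fun a _ => ?_
  split_ifs <;> simp

/-- Independence with points of large multiplicity. -/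
theorem ind_large (K : Type) [Field K] [CharZero K] {ι : Type} [Fintype ι] (w : ι → ℕ)
    (m c : ℕ) (hm : 0 < m) (hB : Big m ((c + 1) * (c + 2)))
    (h : Asm m w + 2 * (m + 1).choose 3 ≤ (c + 2).choose 2) :
    RkS (PF K w) (Tset (c + Slg m w)) (Aw w) := by
  classical
  have h1 : (fun a => if a ∈ Finset.univ.filter (fun a => ¬ w a ≤ m) then 0 else w a) =
      fun a => if w a ≤ m then w a else 0 := by
    funext a
    simp only [Finset.mem_filter, Finset.mem_univ, true_and]
    split_ifs <;> first | rfl | omega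
  have h2 : Aw (fun a => if w a ≤ m then w a else 0) = Asm m w := by
    unfold Aw Asm
    refine Finset.sum_congr rfl fun a _ => ?_
    by_cases hh : w a ≤ m <;> simp [hh]
  have h3 := ranks_ι (K := K) (fun a => if w a ≤ m then w a else 0) m c hm
    (fun a => by beta_reduce; split_ifs <;> omega) hB (by rw [h2]; exact h)
  have h4 := add_set K w (Finset.univ.filter (fun a => ¬ w a ≤ m)) c _ (by rw [h1]; exact h3)
  have h5 : ∑ a ∈ Finset.univ.filter (fun a => ¬ w a ≤ m), w a = Slg m w := by
    unfold Slg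
    rw [Finset.sum_filter]
    refine Finset.sum_congr rfl fun a _ => ?_
    split_ifs <;> first | rfl | omega
  have h6 : ∑ a ∈ Finset.univ.filter (fun a => ¬ w a ≤ m), (w a + 1).choose 2 = Alg m w := by
    unfold Alg
    rw [Finset.sum_filter]
    refine Finset.sum_congr rfl fun a _ => ?_
    split_ifs <;> first | rfl | omega
  rw [h5, h6, h2, add_comm (Alg m w), Asm_add_Alg] at h4
  exact h4

/-- Fullness with points of large multiplicity. -/
theorem full_large (K : Type) [Field K] [CharZero K] {ι : Type} [Fintype ι] (w : ι → ℕ)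
    (m c : ℕ) (hm : 0 < m) (hB : Big m ((c + 1) * (c + 2)))
    (h : (c + 2).choose 2 + 2 * (m + 1).choose 3 ≤ Asm m w) :
    RkS (PF K w) (Tset c) (Tfin c).card := by
  classical
  have : Infinite K := CharZero.infinite K
  have e := Fintype.equivFin ι
  obtain ⟨v, hv⟩ : ∃ v : Fin (Fintype.card ι) → ℕ, v = fun i =>
    if w (e.symm i) ≤ m then w (e.symm i) else 0 := ⟨_, rfl⟩
  have h2 : Aw v = Asm m w := by
    unfold Aw Asm
    rw [hv]
    refine Fintype.sum_equiv e.symm _ _ fun a => ?_
    by_cases hh : w (e.symm a) ≤ m <;> simp [hh]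
  have h3 := (t_ranks K (Fintype.card ι) v m c hm (fun i => by
    rw [hv]
    beta_reduce
    split_ifs <;> omega) hB).2 (by rw [h2]; exact h)
  rw [← coe_Tfin] at h3 ⊢
  have hvw : ∀ i, v i ≤ w (e.symm i) := by
    intro i
    rw [hv]
    beta_reduce
    split_ifs
    · exact le_rfl
    · exact Nat.zero_le _
  exact (t_tr K (Fin (Fintype.card ι)) ι v w
    ((Function.Embedding.subtype _).trans e.symm.toEmbedding) (fun a => hvw a.1) (Tfin c)).2 _ h3

end Pool.Agent.W611
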