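import Mathlib
import Pool.Agent.H15.G.R_seed8.W611.Large
import Pool.Agent.H15.G.R_seed8.W611.Comb2
import Pool.Agent.H15.G.R_seed8.W611.Start2

set_option autoImplicit false

/-!
# Placing the points of a set in a corner
-/

namespace Pool.Agent.W611

open Polynomial Pool.Agent.H932R2 Pool.Agent.H932R3 Pool.Agent.H932R7 Pool.Agent.W608

theorem corner_lt {d e : ℕ} : ∀ x ∈ Tfin d, x ∉ Corner d e → ∀ y ∈ Corner d e,
    (d + 1) * x.1 + x.2 < (d + 1) * y.1 + y.2 := by
  rintro ⟨i, l⟩ hx hx' ⟨i', l'⟩ hy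
  have hx1 : i + l ≤ d := by
    have : ((i, l) : ℕ × ℕ) ∈ (↑(Tfin d) : Set (ℕ × ℕ)) := hx
    rwa [coe_Tfin, mem_Tset] at this
  rw [mem_Corner] at hx' hy
  have h1 : (d + 1) * (i + 1) ≤ (d + 1) * i' := Nat.mul_le_mul_left _ (by omega)
  rw [Nat.mul_add] at h1
  simp only
  omega

theorem place2 {ι : Type} [Fintype ι] (w : ι → ℕ) (S : Finset ι) (d δ u b A : ℕ)
    (hδ : 1 ≤ δ) (hu : 1 ≤ u) (huδ : u ≤ δ * δ) (hd : d + 1 = δ * u + b) (hb : δ < b)
    (hA : A = Aw (fun a : {a // a ∈ S} => w a))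
    (hind : RkS (PF ℚ (fun a : {a // a ∈ S} => w a)) (Tset (b - 1)) A)
    (hfull : RkS (PF ℚ (fun a : {a // a ∈ S} => w a)) (Tset (b - 1 - δ)) (Tfin (b - 1 - δ)).card)
    (hX : 2 * A + 2 * (u + 1) ≤ b * (b + 1)) (N : ℕ)
    (h : ∀ κ t' j, t' < δ * δ + 2 * κ → j ≤ u + 1 →
      sz (δ * δ + 2 * κ) u t' j + 2 * A = (d + 1) * (d + 2) →
        RkS (PF ℚ (fun a : {a // a ∉ S} => w a))
          (↑(Lfin (δ * δ + 2 * κ) u t' j) : Set (ℕ × ℕ)) N) :
    RkS (PF ℚ w) (Tset d) (A + N) := by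
  classical
  have hK : ∀ k : ℕ, 0 < k → (k : ℚ) ≠ 0 := fun k hk => Nat.cast_ne_zero.2 (by omega)
  have hst := T_STAB ℚ _ (fun a : {a // a ∈ S} => w a)
  have h1 : RkS (PF ℚ (fun a : {a // a ∈ S} => w a)) (↑(Corner d (δ * u)) : Set (ℕ × ℕ)) A :=
    RkS.compressX hst (d + 1) (fun k hk _ => hK k hk) (corner_dom (by omega) (by omega)) hind
  have e1 : δ * (u + 1) = δ * u + δ := by ring
  have h2 : RkS (PF ℚ (fun a : {a // a ∈ S} => w a)) (↑(Corner d (δ * (u + 1))) : Set (ℕ × ℕ))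
      (Corner d (δ * (u + 1))).card := by
    have h3 := RkS.compressX hst (d + 1) (fun k hk _ => hK k hk)
      (corner_dom (d := d) (e := δ * (u + 1)) (by omega) (by omega)) hfull
    have h4 : (Corner d (δ * (u + 1))).card = (Tfin (b - 1 - δ)).card := by
      have h5 := card_Corner (d := d) (e := δ * (u + 1)) (b := b - δ) (by omega)
      have h6 := card_Tfin (b - 1 - δ)
      have h7 : b - 1 - δ + 1 = b - δ := by omega
      have h8 : b - 1 - δ + 2 = b - δ + 1 := by omega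
      rw [h7, h8] at h6
      omega
    rw [h4]
    exact h3
  have hsub : Corner d (δ * (u + 1)) ⊆ Corner d (δ * u) := by
    rintro ⟨i, l⟩ hp
    rw [mem_Corner] at hp ⊢
    omega
  rw [← coe_Tfin]
  refine split_S w S (Tfin d) _ ?_
  rw [hA]
  refine comb2 _ _ (Tfin d) (Corner d (δ * u)) (Corner d (δ * (u + 1))) (d + 1)
    (Finset.filter_subset _ _) hsub ?_ corner_lt ?_ ?_ N ?_
  · rintro ⟨i, l⟩ hx ⟨i', l'⟩ hx' hxx
    rw [coe_Tfin, mem_Tset] at hx hx'
    simp only at hxx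
    have h1 : i = i' := by
      rcases Nat.lt_trichotomy i i' with h | h | h
      · have : (d + 1) * (i + 1) ≤ (d + 1) * i' := Nat.mul_le_mul_left _ h
        rw [Nat.mul_add] at this
        omega
      · exact h
      · have : (d + 1) * (i' + 1) ≤ (d + 1) * i := Nat.mul_le_mul_left _ h
        rw [Nat.mul_add] at this
        omega
    subst h1
    rw [Prod.mk.injEq]
    exact ⟨rfl, by omega⟩
  · intro x hx
    exact corner_lt x ((Finset.filter_subset _ _) hx)
  · rw [← hA]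
    exact common h1 h2
  · intro R hR hR0 hRc
    rw [← hA] at hRc
    obtain ⟨κ, t', j, h1, h2, h4, h5⟩ := start_heal2 (n := N)
      (T_STAB ℚ _ (fun a : {a // a ∉ S} => w a)) hK (R := R) hδ hu huδ hd hb.le
      (fun p hp => (Finset.mem_filter.1 (hR hp)).2) hR0 (by rw [hRc]; exact hX)
    rw [coe_Tfin]
    refine h5 ?_
    rw [← coe_Lfin h1 h2]
    rw [hRc] at h4
    exact h κ t' j h1 h2 h4

/-- A set of indices with a prescribed sum, up to `2 * c`, and a prescribed parity. -/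
theorem pick {ι : Type} [DecidableEq ι] (f : ι → ℕ) (T B : Finset ι) (c lo P : ℕ)
    (hc : 0 < c) (hB : ∀ a ∈ B, f a ≤ c) (hT : ∑ a ∈ T, f a ≤ lo)
    (hTB : lo + c ≤ ∑ a ∈ T ∪ B, f a) :
    ∃ S, T ⊆ S ∧ S ⊆ T ∪ B ∧ lo ≤ ∑ a ∈ S, f a ∧ ∑ a ∈ S, f a < lo + 2 * c ∧
      S.card % 2 = P % 2 := by
  have key : ∃ S, T ⊆ S ∧ S ⊆ T ∪ B ∧ lo ≤ ∑ a ∈ S, f a ∧ ∑ a ∈ S, f a < lo + c := by
    have h1 : ∀ U ⊆ B, ∃ S, T ⊆ S ∧ S ⊆ T ∪ U ∧ ∑ a ∈ S, f a < lo + c ∧
        (lo ≤ ∑ a ∈ S, f a ∨ S = T ∪ U) := by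
      intro U
      induction U using Finset.induction_on with
      | empty =>
        intro _
        refine ⟨T, Finset.Subset.refl _, ?_, by omega, Or.inr ?_⟩ <;> simp
      | insert a U ha ih =>
        intro hU
        obtain ⟨S, h1, h2, h3, h4⟩ := ih fun x hx => hU (Finset.mem_insert_of_mem hx)
        have h5 : T ∪ U ⊆ T ∪ insert a U :=
          Finset.union_subset_union_right (Finset.subset_insert _ _)
        rcases h4 with h4 | h4
        · exact ⟨S, h1, h2.trans h5, h3, Or.inl h4⟩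
        · by_cases h6 : lo ≤ ∑ a ∈ S, f a
          · exact ⟨S, h1, h2.trans h5, h3, Or.inl h6⟩
          · have h7 : T ∪ insert a U = insert a S := by
              rw [h4]
              ext x
              simp only [Finset.mem_union, Finset.mem_insert]
              tauto
            refine ⟨insert a S, h1.trans (Finset.subset_insert _ _), h7.ge, ?_, Or.inr h7.symm⟩
            have h8 := hB a (hU (Finset.mem_insert_self a U))
            by_cases h9 : a ∈ S
            · rw [Finset.insert_eq_of_mem h9]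
              omega
            · rw [Finset.sum_insert h9]
              omega
    obtain ⟨S, h2, h3, h4, h5⟩ := h1 B (Finset.Subset.refl _)
    rcases h5 with h5 | h5
    · exact ⟨S, h2, h3, h5, h4⟩
    · rw [h5] at h4
      omega
  obtain ⟨S, h1, h2, h3, h4⟩ := key
  by_cases hp : S.card % 2 = P % 2
  · exact ⟨S, h1, h2, h3, by omega, hp⟩
  · obtain ⟨a, ha, ha'⟩ : ∃ a ∈ T ∪ B, a ∉ S := by
      by_contra hcon
      push Not at hcon
      have h5 : T ∪ B = S := Finset.Subset.antisymm (fun x hx => hcon x hx) h2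
      rw [h5] at hTB
      omega
    have haB : a ∈ B := by
      rcases Finset.mem_union.1 ha with h | h
      · exact absurd (h1 h) ha'
      · exact h
    refine ⟨insert a S, h1.trans (Finset.subset_insert _ _), Finset.insert_subset ha h2, ?_, ?_, ?_⟩
    · rw [Finset.sum_insert ha']
      omega
    · rw [Finset.sum_insert ha']
      have := hB a haB
      omega
    · rw [Finset.card_insert_of_notMem ha']
      omega

end Pool.Agent.W611
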