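import Mathlib
import Pool.Agent.H15.G.R_seed8.W611.Large

set_option autoImplicit false

/-!
# Moving two points to the line at infinity
-/

namespace Pool.Agent.W611

open Pool.Agent.H932R2 Pool.Agent.H932R3 Pool.Agent.H932R7 Pool.Agent.W608

section linear

open MvPolynomial (X C aeval)

variable {K : Type} [Field K]

/-- The first form, vanishing at the point `(pa : qa : 1)`. -/
noncomputable def l0 (pa qa : K) : MvPolynomial (Fin 3) K := C qa * X 0 - C pa * X 1

/-- The second form, vanishing at the point `(pb : qb : 1)`. -/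
noncomputable def l1 (pb qb : K) : MvPolynomial (Fin 3) K := C pb * X 1 - C qb * X 0

/-- The third form, vanishing at both points. -/
noncomputable def l2 (pa qa pb qb : K) : MvPolynomial (Fin 3) K :=
  C (pb * qa - pa * qb) * X 2 - l0 pa qa - l1 pb qb

/-- The linear substitution. -/
noncomputable def psi (pa qa pb qb : K) : MvPolynomial (Fin 3) K →ₐ[K] MvPolynomial (Fin 3) K :=
  aeval ![l0 pa qa, l1 pb qb, l2 pa qa pb qb]

/-- The inverse substitution, up to a factor. -/
noncomputable def theta (pa qa pb qb : K) : MvPolynomial (Fin 3) K →ₐ[K] MvPolynomial (Fin 3) K :=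
  aeval ![C pb * X 0 + C pa * X 1, C qb * X 0 + C qa * X 1, X 0 + X 1 + X 2]

theorem psi_X0 (pa qa pb qb : K) : psi pa qa pb qb (X 0) = l0 pa qa := by simp [psi]

theorem psi_X1 (pa qa pb qb : K) : psi pa qa pb qb (X 1) = l1 pb qb := by simp [psi]

theorem psi_X2 (pa qa pb qb : K) : psi pa qa pb qb (X 2) = l2 pa qa pb qb := by simp [psi]

theorem theta_psi (pa qa pb qb : K) (G : MvPolynomial (Fin 3) K) :
    theta pa qa pb qb (psi pa qa pb qb G) =
      aeval (fun i => C (pb * qa - pa * qb) * X i : Fin 3 → MvPolynomial (Fin 3) K) G := by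
  have h : (theta pa qa pb qb).comp (psi pa qa pb qb) =
      aeval (fun i => C (pb * qa - pa * qb) * X i : Fin 3 → MvPolynomial (Fin 3) K) := by
    refine MvPolynomial.algHom_ext fun i => ?_
    have hC : ∀ c : K, theta pa qa pb qb (C c) = C c := fun c => (theta pa qa pb qb).commutes c
    have h0 : theta pa qa pb qb (X 0) = C pb * X 0 + C pa * X 1 := by simp [theta]
    have h1 : theta pa qa pb qb (X 1) = C qb * X 0 + C qa * X 1 := by simp [theta]
    have h2 : theta pa qa pb qb (X 2) = X 0 + X 1 + X 2 := by simp [theta]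
    have e0 : theta pa qa pb qb (l0 pa qa) = C (pb * qa - pa * qb) * X 0 := by
      unfold l0
      rw [map_sub, map_mul, map_mul, hC, hC, h0, h1, map_sub, map_mul, map_mul]
      ring
    have e1 : theta pa qa pb qb (l1 pb qb) = C (pb * qa - pa * qb) * X 1 := by
      unfold l1
      rw [map_sub, map_mul, map_mul, hC, hC, h0, h1, map_sub, map_mul, map_mul]
      ring
    rw [AlgHom.comp_apply, MvPolynomial.aeval_X]
    fin_cases i
    · change theta pa qa pb qb (psi pa qa pb qb (X 0)) = C (pb * qa - pa * qb) * X 0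
      rw [psi_X0, e0]
    · change theta pa qa pb qb (psi pa qa pb qb (X 1)) = C (pb * qa - pa * qb) * X 1
      rw [psi_X1, e1]
    · change theta pa qa pb qb (psi pa qa pb qb (X 2)) = C (pb * qa - pa * qb) * X 2
      rw [psi_X2]
      unfold l2
      rw [map_sub, map_sub, e0, e1, map_mul, hC, h2]
      ring
  rw [← h]
  rfl

theorem psi_inj {pa qa pb qb : K} (hD : pb * qa - pa * qb ≠ 0) :
    Function.Injective (psi pa qa pb qb) := by
  intro F G hFG
  have h1 := congrArg (theta pa qa pb qb) hFG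
  rw [theta_psi, theta_psi] at h1
  have h2 : ∀ H : MvPolynomial (Fin 3) K,
      aeval (fun i => C (pb * qa - pa * qb)⁻¹ * X i : Fin 3 → MvPolynomial (Fin 3) K)
        (aeval (fun i => C (pb * qa - pa * qb) * X i : Fin 3 → MvPolynomial (Fin 3) K) H) = H := by
    intro H
    have h3 : (aeval (fun i => C (pb * qa - pa * qb)⁻¹ * X i : Fin 3 → MvPolynomial (Fin 3) K)).comp
        (aeval (fun i => C (pb * qa - pa * qb) * X i : Fin 3 → MvPolynomial (Fin 3) K)) =
        AlgHom.id K _ := by
      refine MvPolynomial.algHom_ext fun i => ?_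
      rw [AlgHom.comp_apply, MvPolynomial.aeval_X, map_mul, MvPolynomial.aeval_X,
        MvPolynomial.aeval_C, MvPolynomial.algebraMap_eq, ← mul_assoc, ← map_mul,
        mul_inv_cancel₀ hD, map_one, one_mul]
      rfl
    exact AlgHom.congr_fun h3 H
  have h4 := congrArg (aeval (fun i => C (pb * qa - pa * qb)⁻¹ * X i :
    Fin 3 → MvPolynomial (Fin 3) K)) h1
  rwa [h2, h2] at h4

theorem mem_pt_lin (p q u v w : K) (h : u * p + v * q + w = 0) :
    (C u * X 0 + C v * X 1 + C w * X 2 : MvPolynomial (Fin 3) K) ∈ ptIdeal p q := by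
  have h1 : (C u * X 0 + C v * X 1 + C w * X 2 : MvPolynomial (Fin 3) K) =
      C u * (X 0 - C p * X 2) + C v * (X 1 - C q * X 2) := by
    have h2 : w = -(u * p + v * q) := by linear_combination h
    rw [h2, map_neg, map_add, map_mul, map_mul]
    ring
  rw [h1]
  exact Ideal.add_mem _ (Ideal.mul_mem_left _ _ (Ideal.subset_span (Or.inl rfl)))
    (Ideal.mul_mem_left _ _ (Ideal.subset_span (Or.inr rfl)))

theorem l0_form (pa qa : K) : l0 pa qa = C qa * X 0 + C (-pa) * X 1 + C 0 * X 2 := by
  unfold l0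
  rw [map_neg, map_zero]
  ring

theorem l1_form (pb qb : K) : l1 pb qb = C (-qb) * X 0 + C pb * X 1 + C 0 * X 2 := by
  unfold l1
  rw [map_neg, map_zero]
  ring

theorem l2_form (pa qa pb qb : K) : l2 pa qa pb qb =
    C (qb - qa) * X 0 + C (pa - pb) * X 1 + C (pb * qa - pa * qb) * X 2 := by
  unfold l2 l0 l1
  have e1 : (C (qb - qa) : MvPolynomial (Fin 3) K) = C qb - C qa := map_sub _ _ _
  have e2 : (C (pa - pb) : MvPolynomial (Fin 3) K) = C pa - C pb := map_sub _ _ _
  rw [e1, e2]
  ring

theorem psi_homog {pa qa pb qb : K} {d : ℕ} {F : MvPolynomial (Fin 3) K}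
    (hF : F.IsHomogeneous d) : (psi pa qa pb qb F).IsHomogeneous d := by
  have hl : ∀ u v w : K, (C u * X 0 + C v * X 1 + C w * X 2 :
      MvPolynomial (Fin 3) K).IsHomogeneous 1 := fun u v w =>
    (((MvPolynomial.isHomogeneous_X K _).C_mul u).add
      ((MvPolynomial.isHomogeneous_X K _).C_mul v)).add
      ((MvPolynomial.isHomogeneous_X K _).C_mul w)
  have h : (psi pa qa pb qb F).IsHomogeneous (1 * d) := by
    unfold psi
    refine hF.aeval _ fun i => ?_
    fin_cases i
    · change (l0 pa qa).IsHomogeneous 1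
      rw [l0_form]
      exact hl _ _ _
    · change (l1 pb qb).IsHomogeneous 1
      rw [l1_form]
      exact hl _ _ _
    · change (l2 pa qa pb qb).IsHomogeneous 1
      rw [l2_form]
      exact hl _ _ _
  rwa [one_mul] at h

/-- A monomial of the target. -/
theorem psi_mem {pa qa pb qb : K} {I : Ideal (MvPolynomial (Fin 3) K)} {G : MvPolynomial (Fin 3) K}
    {k : ℕ} (f : Fin 3 → Prop) [DecidablePred f]
    (hI : ∀ i, f i → psi pa qa pb qb (X i) ∈ I)
    (hG : ∀ α ∈ G.support, k ≤ ∑ i, if f i then α i else 0) :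
    psi pa qa pb qb G ∈ I ^ k := by
  rw [G.as_sum, map_sum]
  refine Ideal.sum_mem _ fun α hα => ?_
  refine Ideal.pow_le_pow_right (hG α hα) ?_
  rw [MvPolynomial.monomial_eq, map_mul, Finsupp.prod_fintype _ _ (fun i => by simp), map_prod]
  refine Ideal.mul_mem_left _ _ ?_
  have h1 : ∀ i, psi pa qa pb qb (X i ^ α i) ∈ I ^ (if f i then α i else 0) := by
    intro i
    split_ifs with h
    · rw [map_pow]
      exact Ideal.pow_mem_pow (hI i h) _
    · rw [pow_zero, Ideal.one_eq_top]
      trivial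
  rw [← Finset.prod_pow_eq_pow_sum]
  exact Ideal.prod_mem_prod fun i _ => h1 i

end linear

open Polynomial

/-- The monomials of degree at most `d`, with exponents at most `d - b` and `d - a`. -/
def Sfin (d b a : ℕ) : Finset (ℕ × ℕ) := (Tfin d).filter fun p => p.1 + b ≤ d ∧ p.2 + a ≤ d

theorem mem_Sfin {d b a i l : ℕ} :
    ((i, l) : ℕ × ℕ) ∈ Sfin d b a ↔ i + l ≤ d ∧ i + b ≤ d ∧ l + a ≤ d := by
  unfold Sfin
  rw [Finset.mem_filter]
  have : ((i, l) : ℕ × ℕ) ∈ (↑(Tfin d) : Set (ℕ × ℕ)) ↔ i + l ≤ d := by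
    rw [coe_Tfin, mem_Tset]
  rw [Finset.mem_coe] at this
  rw [this]

theorem mem_Tfin {d i l : ℕ} : ((i, l) : ℕ × ℕ) ∈ Tfin d ↔ i + l ≤ d := by
  have : ((i, l) : ℕ × ℕ) ∈ (↑(Tfin d) : Set (ℕ × ℕ)) ↔ i + l ≤ d := by
    rw [coe_Tfin, mem_Tset]
  rwa [Finset.mem_coe] at this

theorem card_corner_choose {d b : ℕ} (hb : b ≤ d + 1) :
    (Corner d (d + 1 - b)).card = (b + 1).choose 2 := by
  have hcorner : ∀ {d e b : ℕ}, d + 1 = e + b → 2 * (Corner d e).card = b * (b + 1) := by
    intro d e b h
    rcases Nat.eq_zero_or_pos b with hb | hb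
    · subst hb
      have : Corner d e = ∅ := by
        rw [Finset.eq_empty_iff_forall_notMem]
        rintro ⟨i, l⟩ hp
        rw [mem_Corner] at hp
        omega
      rw [this]
      rfl
    · obtain ⟨c, rfl⟩ : ∃ c, b = c + 1 := ⟨b - 1, by omega⟩
      have h1 : (Corner d e).card = (Tfin c).card := by
        refine Finset.card_bij' (fun p _ => (p.1 - e, p.2)) (fun p _ => (p.1 + e, p.2)) ?_ ?_ ?_ ?_
        · rintro ⟨i, l⟩ hp
          rw [mem_Corner] at hp
          rw [mem_Tfin]
          omega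
        · rintro ⟨i, l⟩ hp
          rw [mem_Tfin] at hp
          rw [mem_Corner]
          simp only
          omega
        · rintro ⟨i, l⟩ hp
          rw [mem_Corner] at hp
          simp only
          rw [Prod.mk.injEq]
          exact ⟨by omega, rfl⟩
        · rintro ⟨i, l⟩ hp
          simp only
          rw [Prod.mk.injEq]
          exact ⟨by omega, rfl⟩
      rw [h1, card_Tfin]
  have h1 := hcorner (d := d) (e := d + 1 - b) (b := b) (by omega)
  have h2 := two_choose' b
  omega

theorem card_Sfin {d b a : ℕ} (h : a + b ≤ d + 1) :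
    (Sfin d b a).card + (a + 1).choose 2 + (b + 1).choose 2 = (d + 2).choose 2 := by
  classical
  have h1 := card_corner_choose (d := d) (b := b) (by omega)
  have h2 := card_corner_choose (d := d) (b := a) (by omega)
  have h3 : ((Corner d (d + 1 - a)).map (Equiv.prodComm ℕ ℕ).toEmbedding).card =
    (a + 1).choose 2 := by rw [Finset.card_map, h2]
  have hmem : ∀ (S : Finset (ℕ × ℕ)) (x : ℕ × ℕ),
      x ∈ S.map (Equiv.prodComm ℕ ℕ).toEmbedding ↔ x.swap ∈ S := by
    intro S x
    rw [Finset.mem_map_equiv]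
    rfl
  rw [← h1, ← h3, ← card_Tfin', ← Finset.card_union_of_disjoint, ← Finset.card_union_of_disjoint]
  · congr 1
    ext ⟨i, l⟩
    rw [Finset.mem_union, Finset.mem_union, hmem, mem_Sfin, Prod.swap, mem_Corner, mem_Corner,
      mem_Tfin]
    omega
  · rw [Finset.disjoint_left]
    rintro ⟨i, l⟩ hp hq
    rw [Finset.mem_union, hmem, mem_Sfin, Prod.swap, mem_Corner] at hp
    rw [mem_Corner] at hq
    simp only at hp
    omega
  · rw [Finset.disjoint_left]
    rintro ⟨i, l⟩ hp hq
    rw [mem_Sfin] at hp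
    rw [hmem, Prod.swap, mem_Corner] at hq
    simp only at hq
    omega

/-- The dimensions. -/
theorem finrank_unproj {K : Type} [Field K] {ι : Type} (w : ι → ℕ) (c g : ι → K) (a b d : ℕ)
    (pa qa pb qb : K) (hD : pb * qa - pa * qb ≠ 0)
    (hγ : ∀ i, w i ≠ 0 → (pb * qa - pa * qb) - (qa * c i - pa * g i) - (pb * g i - qb * c i) ≠ 0) :
    ∃ c' g' : ι → K,
      Module.finrank K ↥(mspan K (↑(Sfin d b a) : Set (ℕ × ℕ)) ⊓
        Submodule.restrictScalars K (vIdeal 1 w c' (fun i => C (g' i)))) ≤
      Module.finrank K ↥(mspan K (Tset d) ⊓ Submodule.restrictScalars K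
        ((cIdeal (fun _ : Fin 1 => pa) (C qa) a ⊓ cIdeal (fun _ : Fin 1 => pb) (C qb) b) ⊓
          vIdeal 1 w c (fun i => C (g i)))) := by
  classical
  obtain ⟨D, hDd⟩ : ∃ D, D = pb * qa - pa * qb := ⟨_, rfl⟩
  obtain ⟨γ, hγd⟩ : ∃ γ : ι → K, γ = fun i =>
    D - (qa * c i - pa * g i) - (pb * g i - qb * c i) := ⟨_, rfl⟩
  obtain ⟨c', hc'⟩ : ∃ c' : ι → K, c' = fun i => (qa * c i - pa * g i) / γ i := ⟨_, rfl⟩
  obtain ⟨g', hg'⟩ : ∃ g' : ι → K, g' = fun i => (pb * g i - qb * c i) / γ i := ⟨_, rfl⟩
  refine ⟨c', g', ?_⟩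
  obtain ⟨JL, hJL⟩ : ∃ JL : Submodule K K[X][X], JL = mspan K (↑(Sfin d b a) : Set (ℕ × ℕ)) ⊓
    Submodule.restrictScalars K (vIdeal 1 w c' (fun i => C (g' i))) := ⟨_, rfl⟩
  obtain ⟨JR, hJR⟩ : ∃ JR : Submodule K K[X][X], JR = Submodule.restrictScalars K
    ((cIdeal (fun _ : Fin 1 => pa) (C qa) a ⊓ cIdeal (fun _ : Fin 1 => pb) (C qb) b) ⊓
      vIdeal 1 w c (fun i => C (g i))) := ⟨_, rfl⟩
  rw [← hJL, ← hJR]
  have hST : mspan K (↑(Sfin d b a) : Set (ℕ × ℕ)) ≤ mspan K (Tset d) := by
    refine mspan_mono ?_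
    rintro ⟨i, l⟩ hp
    rw [Finset.mem_coe, mem_Sfin] at hp
    rw [mem_Tset]
    omega
  have hL : JL = mspan K (Tset d) ⊓ JL := by
    rw [hJL, ← inf_assoc, inf_eq_right.2 hST]
  have e1 := finrank_forms (d := d) (Submodule.comap (deh K).toLinearMap JL) JL fun F _ => Iff.rfl
  have e2 := finrank_forms (d := d) (Submodule.comap (deh K).toLinearMap JR) JR fun F _ => Iff.rfl
  rw [← hL] at e1
  rw [← e1, ← e2]
  -- the injection
  have hmap : ∀ G : MvPolynomial (Fin 3) K, G ∈ MvPolynomial.homogeneousSubmodule (Fin 3) K d ⊓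
      Submodule.comap (deh K).toLinearMap JL →
      psi pa qa pb qb G ∈ MvPolynomial.homogeneousSubmodule (Fin 3) K d ⊓
        Submodule.comap (deh K).toLinearMap JR := by
    rintro G ⟨hG1, hG2⟩
    have hGh : G.IsHomogeneous d := hG1
    have hψh : (psi pa qa pb qb G).IsHomogeneous d := psi_homog hGh
    refine ⟨hψh, ?_⟩
    have hG3 : deh K G ∈ JL := hG2
    rw [hJL, Submodule.mem_inf, Submodule.restrictScalars_mem] at hG3
    obtain ⟨hG4, hG5⟩ := hG3
    have hsupp : ∀ α ∈ G.support, α 0 + α 1 + α 2 = d ∧ α 0 + b ≤ d ∧ α 1 + a ≤ d := by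
      intro α hα
      have h1 := MvPolynomial.mem_support_iff.1 hα
      have h2 := sum_eq_of_homog hGh h1
      have h3 := coeff_deh hGh h1
      have h4 : ((α 0, α 1) : ℕ × ℕ) ∈ (↑(Sfin d b a) : Set (ℕ × ℕ)) := by
        by_contra hcon
        have h5 : ∀ f ∈ mspan K (↑(Sfin d b a) : Set (ℕ × ℕ)), (f.coeff (α 1)).coeff (α 0) = 0 := by
          intro f hf
          refine Submodule.span_induction ?_ ?_ ?_ ?_ hf
          · rintro _ ⟨p, hp, rfl⟩
            rw [coeff_mon, if_neg]
            rintro rfl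
            exact hcon hp
          · simp
          · intro x y _ _ hx hy
            rw [coeff_add, coeff_add, hx, hy, add_zero]
          · intro r x _ hx
            rw [coeff_smul, coeff_smul, hx, smul_zero]
        rw [h5 _ hG4] at h3
        exact h1 h3.symm
      rw [Finset.mem_coe, mem_Sfin] at h4
      omega
    have ha : psi pa qa pb qb G ∈ (ptIdeal pa qa) ^ a := by
      refine psi_mem (fun i => i = 0 ∨ i = 2) (fun i hi => ?_) fun α hα => ?_
      · rcases hi with rfl | rfl
        · rw [psi_X0, l0_form]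
          exact mem_pt_lin _ _ _ _ _ (by ring)
        · rw [psi_X2, l2_form]
          exact mem_pt_lin _ _ _ _ _ (by ring)
      · have := hsupp α hα
        rw [Fin.sum_univ_three, if_pos (Or.inl rfl), if_neg (by decide), if_pos (Or.inr rfl)]
        omega
    have hb : psi pa qa pb qb G ∈ (ptIdeal pb qb) ^ b := by
      refine psi_mem (fun i => i = 1 ∨ i = 2) (fun i hi => ?_) fun α hα => ?_
      · rcases hi with rfl | rfl
        · rw [psi_X1, l1_form]
          exact mem_pt_lin _ _ _ _ _ (by ring)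
        · rw [psi_X2, l2_form]
          exact mem_pt_lin _ _ _ _ _ (by ring)
      · have := hsupp α hα
        rw [Fin.sum_univ_three, if_neg (by decide), if_pos (Or.inl rfl), if_pos (Or.inr rfl)]
        omega
    have hi : ∀ i, psi pa qa pb qb G ∈ (ptIdeal (c i) (g i)) ^ (w i) := by
      intro i
      by_cases hw : w i = 0
      · rw [hw, pow_zero, Ideal.one_eq_top]
        trivial
      have hγi : γ i ≠ 0 := by
        rw [hγd, hDd]
        exact hγ i hw
      unfold vIdeal at hG5
      rw [Ideal.mem_iInf] at hG5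
      have h1 := (mem_ptIdeal_iff (F := G) hG1).2 (hG5 i)
      have h2 := Ideal.mem_map_of_mem (psi pa qa pb qb) h1
      rw [Ideal.map_pow] at h2
      refine Ideal.pow_right_mono ?_ _ h2
      unfold ptIdeal
      rw [Ideal.map_span, Ideal.span_le]
      have hCr : ∀ r : K, psi pa qa pb qb (MvPolynomial.C r) = MvPolynomial.C r := fun r =>
        (psi pa qa pb qb).commutes r
      rintro _ ⟨F, hF, rfl⟩
      rcases hF with rfl | hF
      · change psi pa qa pb qb _ ∈ ptIdeal (c i) (g i)
        rw [map_sub, map_mul, hCr, psi_X0, psi_X2, l0_form, l2_form]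
        have e : (MvPolynomial.C qa * MvPolynomial.X 0 + MvPolynomial.C (-pa) * MvPolynomial.X 1 +
            MvPolynomial.C 0 * MvPolynomial.X 2 - MvPolynomial.C (c' i) *
            (MvPolynomial.C (qb - qa) * MvPolynomial.X 0 +
              MvPolynomial.C (pa - pb) * MvPolynomial.X 1 +
              MvPolynomial.C (pb * qa - pa * qb) * MvPolynomial.X 2) :
                MvPolynomial (Fin 3) K) =
            MvPolynomial.C (qa - c' i * (qb - qa)) * MvPolynomial.X 0 +
              MvPolynomial.C (-pa - c' i * (pa - pb)) * MvPolynomial.X 1 +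
              MvPolynomial.C (0 - c' i * (pb * qa - pa * qb)) * MvPolynomial.X 2 := by
          simp only [map_sub, map_mul, map_neg, map_zero]
          ring
        rw [e]
        refine mem_pt_lin _ _ _ _ _ ?_
        have h3 : c' i * γ i = qa * c i - pa * g i := by
          rw [hc']
          exact div_mul_cancel₀ _ hγi
        have h4 : γ i = D - (qa * c i - pa * g i) - (pb * g i - qb * c i) := by rw [hγd]
        rw [h4, hDd] at h3
        linear_combination -h3
      · rw [Set.mem_singleton_iff] at hF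
        subst hF
        change psi pa qa pb qb _ ∈ ptIdeal (c i) (g i)
        rw [map_sub, map_mul, hCr, psi_X1, psi_X2, l1_form, l2_form]
        have e : (MvPolynomial.C (-qb) * MvPolynomial.X 0 + MvPolynomial.C pb * MvPolynomial.X 1 +
            MvPolynomial.C 0 * MvPolynomial.X 2 - MvPolynomial.C (g' i) *
            (MvPolynomial.C (qb - qa) * MvPolynomial.X 0 +
              MvPolynomial.C (pa - pb) * MvPolynomial.X 1 +
              MvPolynomial.C (pb * qa - pa * qb) * MvPolynomial.X 2) :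
                MvPolynomial (Fin 3) K) =
            MvPolynomial.C (-qb - g' i * (qb - qa)) * MvPolynomial.X 0 +
              MvPolynomial.C (pb - g' i * (pa - pb)) * MvPolynomial.X 1 +
              MvPolynomial.C (0 - g' i * (pb * qa - pa * qb)) * MvPolynomial.X 2 := by
          simp only [map_sub, map_mul, map_neg, map_zero]
          ring
        rw [e]
        refine mem_pt_lin _ _ _ _ _ ?_
        have h3 : g' i * γ i = pb * g i - qb * c i := by
          rw [hg']
          exact div_mul_cancel₀ _ hγi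
        have h4 : γ i = D - (qa * c i - pa * g i) - (pb * g i - qb * c i) := by rw [hγd]
        rw [h4, hDd] at h3
        linear_combination -h3
    have hψ1 : psi pa qa pb qb G ∈ MvPolynomial.homogeneousSubmodule (Fin 3) K d := hψh
    change deh K (psi pa qa pb qb G) ∈ JR
    rw [hJR, Submodule.restrictScalars_mem, Ideal.mem_inf, Ideal.mem_inf]
    refine ⟨⟨(mem_ptIdeal_iff hψ1).1 ha, (mem_ptIdeal_iff hψ1).1 hb⟩, ?_⟩
    unfold vIdeal
    rw [Ideal.mem_iInf]
    exact fun i => (mem_ptIdeal_iff hψ1).1 (hi i)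
  have hfin : Module.Finite K ↥(MvPolynomial.homogeneousSubmodule (Fin 3) K d) :=
    Module.Finite.iff_fg.2 (MvPolynomial.homogeneousSubmodule_fg _ _ d)
  have hfin2 : Module.Finite K ↥(MvPolynomial.homogeneousSubmodule (Fin 3) K d ⊓
      Submodule.comap (deh K).toLinearMap JR) :=
    Submodule.finiteDimensional_of_le (S₂ := MvPolynomial.homogeneousSubmodule (Fin 3) K d)
      inf_le_left
  refine LinearMap.finrank_le_finrank_of_injective
    (f := ((psi pa qa pb qb).toLinearMap.restrict hmap)) ?_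
  intro F G hFG
  have h1 := congrArg Subtype.val hFG
  exact Subtype.ext (psi_inj hD h1)

end Pool.Agent.W611
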