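import Mathlib
import Pool.Agent.H15.G.R_seed8.W611.Unproj

set_option autoImplicit false

/-!
# Moving two points to the line at infinity: ranks
-/

namespace Pool.Agent.W611

open Polynomial Pool.Agent.H932R2 Pool.Agent.H932R3 Pool.Agent.H932R7 Pool.Agent.W608

theorem unproj {ι : Type} [Fintype ι] [DecidableEq ι] (w : ι → ℕ) (a0 b0 : ι) (hab : a0 ≠ b0)
    (d N N' : ℕ) (hd : w a0 + w b0 ≤ d + 1) (h : RkS (PF ℚ w) (Tset d) N)
    (hN : N' + (w a0 + 1).choose 2 + (w b0 + 1).choose 2 ≤ N) :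
    RkS (PF ℚ (Function.update (Function.update w a0 0) b0 0))
      (↑(Sfin d (w b0) (w a0)) : Set (ℕ × ℕ)) N' := by
  classical
  obtain ⟨e⟩ : Nonempty (ι ≃ Fin (Fintype.card ι)) := ⟨Fintype.equivFin ι⟩
  have key : RkS (PF ℚ (fun i => w (e.symm i))) (Tset d) N := by
    obtain ⟨_, ⟨c, γ, rfl⟩, h⟩ := h
    refine ⟨_, ⟨fun i => c (e.symm i), fun i => γ (e.symm i), rfl⟩, ?_⟩
    refine h.anti ?_
    unfold vIdeal
    refine le_iInf fun a => ?_
    refine iInf_le_of_le (e a) ?_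
    beta_reduce
    rw [e.symm_apply_apply]
  obtain ⟨F, hF, hF'⟩ := T_HOP ℚ _ _ _ _ key
  obtain ⟨A, hA⟩ : ∃ A, A = e a0 := ⟨_, rfl⟩
  obtain ⟨B, hB⟩ : ∃ B, B = e b0 := ⟨_, rfl⟩
  have hAB : A ≠ B := by
    rw [hA, hB]
    exact fun hh => hab (e.injective hh)
  obtain ⟨D, hD⟩ : ∃ D : MvPolynomial (Fin (Fintype.card ι) × Fin 2) ℚ, D =
      MvPolynomial.X (B, 0) * MvPolynomial.X (A, 1) -
      MvPolynomial.X (A, 0) * MvPolynomial.X (B, 1) := ⟨_, rfl⟩
  obtain ⟨Γ, hΓ⟩ : ∃ Γ : Fin (Fintype.card ι) → MvPolynomial (Fin (Fintype.card ι) × Fin 2) ℚ,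
      Γ = fun i => D -
        (MvPolynomial.X (A, 1) * MvPolynomial.X (i, 0) -
          MvPolynomial.X (A, 0) * MvPolynomial.X (i, 1)) -
        (MvPolynomial.X (B, 0) * MvPolynomial.X (i, 1) -
          MvPolynomial.X (B, 1) * MvPolynomial.X (i, 0)) := ⟨_, rfl⟩
  obtain ⟨P0, hP0⟩ : ∃ P0 : Fin (Fintype.card ι) × Fin 2 → ℚ, P0 = fun x =>
      if x = (B, 0) ∨ x = (A, 1) then 1 else 0 := ⟨_, rfl⟩
  have v1 : P0 (B, 0) = 1 := by rw [hP0]; simp
  have v2 : P0 (A, 1) = 1 := by rw [hP0]; simp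
  have v3 : P0 (A, 0) = 0 := by
    rw [hP0]
    beta_reduce
    rw [if_neg]
    rintro (hh | hh)
    · exact hAB (congrArg Prod.fst hh)
    · have := congrArg Prod.snd hh
      simp at this
  have v4 : P0 (B, 1) = 0 := by
    rw [hP0]
    beta_reduce
    rw [if_neg]
    rintro (hh | hh)
    · have := congrArg Prod.snd hh
      simp at this
    · exact hAB (congrArg Prod.fst hh).symm
  have v5 : ∀ i, i ≠ A → i ≠ B → ∀ j, P0 (i, j) = 0 := by
    intro i h1 h2 j
    rw [hP0]
    beta_reduce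
    rw [if_neg]
    rintro (hh | hh)
    · exact h2 (congrArg Prod.fst hh)
    · exact h1 (congrArg Prod.fst hh)
  have hDe : MvPolynomial.aeval P0 D = 1 := by
    rw [hD]
    simp only [map_sub, map_mul, MvPolynomial.aeval_X, v1, v2, v3, v4]
    norm_num
  have hD0 : D ≠ 0 := by
    intro hh
    rw [hh, map_zero] at hDe
    exact zero_ne_one hDe
  have hΓ0 : ∀ i, i ≠ A → i ≠ B → Γ i ≠ 0 := by
    intro i h1 h2 hh
    have h3 : MvPolynomial.aeval P0 (Γ i) = 1 := by
      rw [hΓ]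
      simp only [map_sub, map_mul, MvPolynomial.aeval_X, v1, v2, v3, v4, v5 i h1 h2, hDe]
      norm_num
    rw [hh, map_zero] at h3
    exact zero_ne_one h3
  obtain ⟨G, hG⟩ : ∃ G : MvPolynomial (Fin (Fintype.card ι) × Fin 2) ℚ, G =
      ∏ i, if i = A ∨ i = B then 1 else Γ i := ⟨_, rfl⟩
  have hG0 : G ≠ 0 := by
    rw [hG, Finset.prod_ne_zero_iff]
    intro i _
    split_ifs with hi
    · exact one_ne_zero
    · push Not at hi
      exact hΓ0 i hi.1 hi.2
  obtain ⟨P, hP⟩ : ∃ P : Fin (Fintype.card ι) × Fin 2 → ℚ,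
      MvPolynomial.aeval P (F * D * G) ≠ 0 := by
    by_contra hcon
    push Not at hcon
    refine mul_ne_zero (mul_ne_zero hF hD0) hG0 (MvPolynomial.funext fun x => ?_)
    rw [map_zero]
    have := hcon x
    rwa [MvPolynomial.aeval_eq_eval] at this
  rw [map_mul, map_mul] at hP
  have hPF := left_ne_zero_of_mul (left_ne_zero_of_mul hP)
  have hPD := right_ne_zero_of_mul (left_ne_zero_of_mul hP)
  have hPG := right_ne_zero_of_mul hP
  have hPΓ : ∀ i, i ≠ A → i ≠ B → MvPolynomial.aeval P (Γ i) ≠ 0 := by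
    intro i h1 h2
    rw [hG, map_prod, Finset.prod_ne_zero_iff] at hPG
    have h3 := hPG i (Finset.mem_univ _)
    rwa [if_neg (by push Not; exact ⟨h1, h2⟩)] at h3
  have h3 := hF' P hPF
  have hle : vIdeal 1 w (fun a => P (e a, 0)) (fun a => C (P (e a, 1))) ≤
      vIdeal 1 (fun i => w (e.symm i)) (fun i => P (i, 0)) (fun i => C (P (i, 1))) := by
    unfold vIdeal
    refine le_iInf fun i => ?_
    refine iInf_le_of_le (e.symm i) ?_
    beta_reduce
    rw [e.apply_symm_apply]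
  have h4 := h3.anti hle
  rw [← coe_Tfin] at h4
  have h5 := (T_RK ℚ _ (Tfin d) N).1 h4
  rw [coe_Tfin] at h5
  obtain ⟨c', g', h6⟩ := finrank_unproj (K := ℚ) (Function.update (Function.update w a0 0) b0 0)
    (fun a => P (e a, 0)) (fun a => P (e a, 1)) (w a0) (w b0) d (P (A, 0)) (P (A, 1)) (P (B, 0))
    (P (B, 1)) (by
      rw [hD] at hPD
      simpa only [map_sub, map_mul, MvPolynomial.aeval_X] using hPD) (by
      intro i hi
      have hib : i ≠ b0 := by
        rintro rfl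
        simp at hi
      have hia : i ≠ a0 := by
        rintro rfl
        rw [Function.update_of_ne hab] at hi
        simp at hi
      have h7 := hPΓ (e i) (by rw [hA]; exact fun hh => hia (e.injective hh))
        (by rw [hB]; exact fun hh => hib (e.injective hh))
      rw [hΓ, hD] at h7
      simpa only [map_sub, map_mul, MvPolynomial.aeval_X] using h7)
  have h7 : Module.finrank ℚ ↥(mspan ℚ (Tset d) ⊓ Submodule.restrictScalars ℚ
        ((cIdeal (fun _ : Fin 1 => P (A, 0)) (C (P (A, 1))) (w a0) ⊓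
          cIdeal (fun _ : Fin 1 => P (B, 0)) (C (P (B, 1))) (w b0)) ⊓
          vIdeal 1 (Function.update (Function.update w a0 0) b0 0) (fun a => P (e a, 0))
            (fun a => C (P (e a, 1))))) ≤
      Module.finrank ℚ ↥(mspan ℚ (Tset d) ⊓ Submodule.restrictScalars ℚ
        (vIdeal 1 w (fun a => P (e a, 0)) (fun a => C (P (e a, 1))))) := by
    have : Module.Finite ℚ ↥(mspan ℚ (Tset d) ⊓ Submodule.restrictScalars ℚ
        (vIdeal 1 w (fun a => P (e a, 0)) (fun a => C (P (e a, 1))))) := by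
      have hfin : Module.Finite ℚ ↥(mspan ℚ (Tset d)) := by
        rw [← coe_Tfin]
        exact Module.Finite.iff_fg.2 (Submodule.fg_span ((Finset.finite_toSet _).image _))
      exact Submodule.finiteDimensional_of_le (S₂ := mspan ℚ (Tset d)) inf_le_left
    refine Submodule.finrank_mono (inf_le_inf_left _ ?_)
    intro f hf
    rw [Submodule.restrictScalars_mem] at hf ⊢
    rw [Ideal.mem_inf, Ideal.mem_inf] at hf
    obtain ⟨⟨hf1, hf2⟩, hf3⟩ := hf
    unfold vIdeal at hf3 ⊢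
    rw [Ideal.mem_iInf] at hf3 ⊢
    intro i
    by_cases hib : i = b0
    · subst hib
      rw [hB] at hf2
      exact hf2
    by_cases hia : i = a0
    · subst hia
      rw [hA] at hf1
      exact hf1
    have h8 := hf3 i
    rwa [Function.update_of_ne hib, Function.update_of_ne hia] at h8
  have h8 := card_Sfin (d := d) (b := w b0) (a := w a0) hd
  refine ⟨_, ⟨c', fun i => C (g' i), rfl⟩, (T_RK ℚ _ (Sfin d (w b0) (w a0)) N').2 ?_⟩
  rw [← card_Tfin'] at h8
  omega

end Pool.Agent.W611
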