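import Mathlib
import Pool.Agent.H15.G.R_seed8.W611.Unproj2

set_option autoImplicit false

/-!
# A point at the origin and a point in the corner
-/

namespace Pool.Agent.W611

open Polynomial Pool.Agent.H932R2 Pool.Agent.H932R3 Pool.Agent.H932R7 Pool.Agent.W608

/-- The monomials of degree between `a` and `d`, with first exponent at most `d - b`. -/
def Mfin (d a b : ℕ) : Finset (ℕ × ℕ) :=
  (Tfin d).filter fun p => a ≤ p.1 + p.2 ∧ p.1 + b ≤ d

theorem mem_Mfin {d a b i l : ℕ} :
    ((i, l) : ℕ × ℕ) ∈ Mfin d a b ↔ i + l ≤ d ∧ a ≤ i + l ∧ i + b ≤ d := by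
  unfold Mfin
  rw [Finset.mem_filter, mem_Tfin]

/-- The small monomials. -/
def Ofin (a : ℕ) : Finset (ℕ × ℕ) := (Tfin a).filter fun p => p.1 + p.2 < a

theorem mem_Ofin {a i l : ℕ} : ((i, l) : ℕ × ℕ) ∈ Ofin a ↔ i + l < a := by
  unfold Ofin
  rw [Finset.mem_filter, mem_Tfin]
  simp only
  omega

theorem card_Ofin (a : ℕ) : (Ofin a).card = (a + 1).choose 2 := by
  rcases Nat.eq_zero_or_pos a with rfl | ha
  · have : Ofin 0 = ∅ := by
      rw [Finset.eq_empty_iff_forall_notMem]
      rintro ⟨i, l⟩ hp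
      rw [mem_Ofin] at hp
      omega
    rw [this]
    rfl
  · obtain ⟨c, rfl⟩ : ∃ c, a = c + 1 := ⟨a - 1, by omega⟩
    have : Ofin (c + 1) = Tfin c := by
      ext ⟨i, l⟩
      rw [mem_Ofin, mem_Tfin]
      omega
    rw [this, card_Tfin']

theorem card_Mfin {d a b : ℕ} (h : a + b ≤ d + 1) :
    (Mfin d a b).card + (a + 1).choose 2 + (b + 1).choose 2 = (d + 2).choose 2 := by
  classical
  have h1 := card_corner_choose (d := d) (b := b) (by omega)
  rw [← h1, ← card_Ofin a, ← card_Tfin', ← Finset.card_union_of_disjoint,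
    ← Finset.card_union_of_disjoint]
  · congr 1
    ext ⟨i, l⟩
    rw [Finset.mem_union, Finset.mem_union, mem_Ofin, mem_Mfin, mem_Corner, mem_Tfin]
    omega
  · rw [Finset.disjoint_left]
    rintro ⟨i, l⟩ hp hq
    rw [Finset.mem_union, mem_Ofin, mem_Mfin] at hp
    rw [mem_Corner] at hq
    omega
  · rw [Finset.disjoint_left]
    rintro ⟨i, l⟩ hp hq
    rw [mem_Mfin] at hp
    rw [mem_Ofin] at hq
    omega

theorem coeff_origin {K : Type} [Field K] (a : ℕ) : ∀ f : K[X][X],
    f ∈ cIdeal (fun _ : Fin 1 => (0 : K)) 0 a → ∀ i l : ℕ, i + l < a → (f.coeff l).coeff i = 0 := by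
  induction a with
  | zero =>
    intro f _ i l h
    omega
  | succ a ih =>
    intro f hf
    unfold cIdeal at hf
    rw [Ideal.IsTwoSided.pow_succ] at hf
    refine Submodule.mul_induction_on hf ?_ ?_
    · intro g hg h hh i l hil
      have hroot : rootPoly (fun _ : Fin 1 => (0 : K)) = X := by
        unfold rootPoly
        simp
      rw [hroot, map_zero, sub_zero, Ideal.mem_span_pair] at hg
      obtain ⟨g1, g2, rfl⟩ := hg
      have h1 : ∀ i l, i + l < a → ((g1 * h).coeff l).coeff i = 0 :=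
        ih _ (Ideal.mul_mem_left _ _ hh)
      have h2 : ∀ i l, i + l < a → ((g2 * h).coeff l).coeff i = 0 :=
        ih _ (Ideal.mul_mem_left _ _ hh)
      have e : (g1 * X + g2 * C X) * h = (g1 * h) * X + C X * (g2 * h) := by ring
      rw [e, coeff_add, coeff_add, coeff_C_mul]
      have h3 : (((g1 * h) * X).coeff l).coeff i = 0 := by
        rcases Nat.eq_zero_or_pos l with rfl | hl
        · simp
        · obtain ⟨l', rfl⟩ : ∃ l', l = l' + 1 := ⟨l - 1, by omega⟩
          rw [coeff_mul_X]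
          exact h1 i l' (by omega)
      have h4 : (X * (g2 * h).coeff l).coeff i = 0 := by
        rcases Nat.eq_zero_or_pos i with rfl | hi
        · simp
        · obtain ⟨i', rfl⟩ : ∃ i', i = i' + 1 := ⟨i - 1, by omega⟩
          rw [coeff_X_mul]
          exact h2 i' l (by omega)
      rw [h3, h4, add_zero]
    · intro x y hx hy i l hil
      rw [coeff_add, coeff_add, hx i l hil, hy i l hil, add_zero]

theorem coeff_mspan {K : Type} [Field K] {M : Set (ℕ × ℕ)} {f : K[X][X]} (hf : f ∈ mspan K M)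
    {i l : ℕ} (h : ((i, l) : ℕ × ℕ) ∉ M) : (f.coeff l).coeff i = 0 := by
  refine Submodule.span_induction ?_ ?_ ?_ ?_ hf
  · rintro _ ⟨p, hp, rfl⟩
    rw [coeff_mon, if_neg]
    rintro rfl
    exact h hp
  · simp
  · intro x y _ _ hx hy
    rw [coeff_add, coeff_add, hx, hy, add_zero]
  · intro r x _ hx
    rw [coeff_smul, coeff_smul, hx, smul_zero]

/-- Adding a point at the origin. -/
theorem add_origin (K : Type) [Field K] {ι : Type} [DecidableEq ι] (w : ι → ℕ) (a0 : ι) (a : ℕ)
    (ha : w a0 = a) (M M1 : Set (ℕ × ℕ)) (hM : M ⊆ M1) (hM1 : ∀ p ∈ M, a ≤ p.1 + p.2)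
    (hO : (↑(Ofin a) : Set (ℕ × ℕ)) ⊆ M1) (N : ℕ)
    (h : RkS (PF K (Function.update w a0 0)) M N) :
    RkS (PF K w) M1 ((a + 1).choose 2 + N) := by
  classical
  obtain ⟨_, ⟨c, γ, rfl⟩, v, hv, hli⟩ := h
  refine ⟨vIdeal 1 w (Function.update c a0 0) (Function.update γ a0 0), ⟨_, _, rfl⟩, ?_⟩
  rw [← card_Ofin a]
  obtain ⟨e⟩ : Nonempty (Fin (Ofin a).card ≃ {x // x ∈ Ofin a}) := ⟨(Ofin a).equivFin.symm⟩
  refine ⟨fun i => Fin.append (fun j => mon K (e j).1) v i, fun i => ?_, fun b hb => ?_⟩
  · refine Fin.addCases (fun j => ?_) (fun j => ?_) i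
    · beta_reduce
      rw [Fin.append_left]
      exact Submodule.subset_span ⟨_, hO (e j).2, rfl⟩
    · beta_reduce
      rw [Fin.append_right]
      exact mspan_mono hM (hv j)
  · rw [Fin.sum_univ_add] at hb
    simp only [Fin.append_left, Fin.append_right] at hb
    obtain ⟨f1, hf1⟩ : ∃ f1, f1 = ∑ j, b (Fin.castAdd N j) • mon K (e j).1 := ⟨_, rfl⟩
    obtain ⟨f2, hf2⟩ : ∃ f2, f2 = ∑ j, b (Fin.natAdd (Ofin a).card j) • v j := ⟨_, rfl⟩
    rw [← hf1, ← hf2] at hb
    have hf2m : f2 ∈ mspan K M := by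
      rw [hf2]
      exact Submodule.sum_mem _ fun j _ => Submodule.smul_mem _ _ (hv j)
    have hb' := hb
    unfold vIdeal at hb
    rw [Ideal.mem_iInf] at hb
    have hb0 := hb a0
    rw [Function.update_self, Function.update_self, ha] at hb0
    have hz : ∀ j, b (Fin.castAdd N j) = 0 := by
      intro j
      obtain ⟨⟨i, l⟩, hp⟩ : ∃ p : ℕ × ℕ, (e j).1 = p := ⟨_, rfl⟩
      have hmem : i + l < a := by
        have := (e j).2
        rw [hp, mem_Ofin] at this
        exact this
      have h1 := coeff_origin a _ hb0 i l hmem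
      rw [coeff_add, coeff_add] at h1
      have h2 : (f2.coeff l).coeff i = 0 := by
        refine coeff_mspan hf2m fun hh => ?_
        have := hM1 _ hh
        simp only at this
        omega
      rw [h2, add_zero, hf1, finsetSum_coeff, finsetSum_coeff] at h1
      rw [Finset.sum_eq_single j] at h1
      · rw [coeff_smul, coeff_smul, hp, coeff_mon, if_pos rfl, smul_eq_mul, mul_one] at h1
        exact h1
      · intro k _ hk
        rw [coeff_smul, coeff_smul, coeff_mon, if_neg, smul_zero]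
        intro hh
        refine hk (e.injective (Subtype.ext ?_))
        rw [hp, ← hh]
      · intro hh
        exact absurd (Finset.mem_univ j) hh
    have hf1z : f1 = 0 := by
      rw [hf1]
      exact Finset.sum_eq_zero fun j _ => by rw [hz j, zero_smul]
    rw [hf1z, zero_add] at hb'
    have h3 := hli (fun j => b (Fin.natAdd (Ofin a).card j)) (by
      rw [← hf2]
      unfold vIdeal at hb' ⊢
      rw [Ideal.mem_iInf] at hb' ⊢
      intro i
      by_cases hi : i = a0
      · subst hi
        rw [Function.update_self, H932R7.TRh.cIdeal_zero]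
        trivial
      · have := hb' i
        rw [Function.update_of_ne hi, Function.update_of_ne hi] at this
        rw [Function.update_of_ne hi]
        exact this)
    intro i
    refine Fin.addCases (fun j => ?_) (fun j => ?_) i
    · exact hz j
    · exact h3 j

/-- Adding a point in the corner. -/
theorem add_corner (K : Type) [Field K] [CharZero K] {ι : Type} [Fintype ι] [DecidableEq ι]
    (w : ι → ℕ) (a : ι) (d N : ℕ) (h0 : 0 < w a) (hd : w a ≤ d)
    (h : RkS (PF K (Function.update w a 0)) (↑(Mfin d 0 (w a)) : Set (ℕ × ℕ)) N) :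
    RkS (PF K w) (Tset d) ((w a + 1).choose 2 + N) := by
  have : Infinite K := CharZero.infinite K
  obtain ⟨μ, hμ⟩ : ∃ μ, μ = w a := ⟨_, rfl⟩
  rw [← hμ] at h0 hd h ⊢
  obtain ⟨c, hc⟩ : ∃ c, d = c + μ := ⟨d - μ, by omega⟩
  subst hc
  have h1 : RkS (PF K (Sum.elim (fun _ : Unit => μ) (Function.update w a 0)))
      (↑(Tfin (c + μ)) : Set (ℕ × ℕ)) ((μ + 1).choose 2 + N) := by
    have h2 := comb (K := K) (fun _ : Unit => μ) (Function.update w a 0) (Tfin (c + μ))
      (Corner (c + μ) (c + 1)) (c + μ + 1) (Finset.filter_subset _ _) ?_ ?_ ?_ N ?_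
    · have h3 : Aw (fun _ : Unit => μ) = (μ + 1).choose 2 := by
        unfold Aw
        simp
      rw [h3] at h2
      exact h2
    · rintro ⟨i, l⟩ hx ⟨i', l'⟩ hx' hxx
      rw [coe_Tfin, mem_Tset] at hx hx'
      simp only at hxx
      have h1 : i = i' := by
        rcases Nat.lt_trichotomy i i' with h | h | h
        · have : (c + μ + 1) * (i + 1) ≤ (c + μ + 1) * i' := Nat.mul_le_mul_left _ h
          rw [Nat.mul_add] at this
          omega
        · exact h
        · have : (c + μ + 1) * (i' + 1) ≤ (c + μ + 1) * i := Nat.mul_le_mul_left _ h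
          rw [Nat.mul_add] at this
          omega
      subst h1
      rw [Prod.mk.injEq]
      exact ⟨rfl, by omega⟩
    · rintro ⟨i, l⟩ hx hx' ⟨i', l'⟩ hy
      have hx1 : i + l ≤ c + μ := by
        have : ((i, l) : ℕ × ℕ) ∈ (↑(Tfin (c + μ)) : Set (ℕ × ℕ)) := hx
        rwa [coe_Tfin, mem_Tset] at this
      rw [mem_Corner] at hx' hy
      have h1 : (c + μ + 1) * (i + 1) ≤ (c + μ + 1) * i' := Nat.mul_le_mul_left _ (by omega)
      rw [Nat.mul_add] at h1
      simp only
      omega
    · have h3 : Aw (fun _ : Unit => μ) = (μ + 1).choose 2 := by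
        unfold Aw
        simp
      rw [h3]
      exact RkS.compressX (T_STAB K _ _) (c + μ + 1) (fun k hk _ => Nat.cast_ne_zero.2 (by omega))
        (corner_dom (by omega) (by omega)) (one_point K μ h0)
    · intro R hR _
      refine RkS.mono ?_ h
      rintro ⟨i, l⟩ hp
      rw [Finset.mem_coe, mem_Mfin] at hp
      refine ⟨?_, fun hmem => ?_⟩
      · rw [coe_Tfin, mem_Tset]
        omega
      · have h4 := hR hmem
        rw [mem_Corner] at h4
        omega
  rw [← coe_Tfin]
  refine (t_tr K (Unit ⊕ ι) ι (Sum.elim (fun _ : Unit => μ) (Function.update w a 0)) w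
    ⟨fun x => Sum.elim (fun _ => a) id x.1, ?_⟩ ?_ (Tfin (c + μ))).2 _ h1
  · rintro ⟨x | x, hx⟩ ⟨y | y, hy⟩ hxy
    · rfl
    · exfalso
      simp only [Sum.elim_inl, Sum.elim_inr, id] at hxy
      rw [← hxy] at hy
      simp at hy
    · exfalso
      simp only [Sum.elim_inl, Sum.elim_inr, id] at hxy
      rw [hxy] at hx
      simp at hx
    · simp only [Sum.elim_inr, id] at hxy
      subst hxy
      rfl
  · rintro ⟨x | x, hx⟩
    · exact hμ.le
    · change Function.update w a 0 x ≤ w x
      by_cases hxa : x = a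
      · subst hxa
        simp
      · rw [Function.update_of_ne hxa]

end Pool.Agent.W611
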