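import Mathlib
import Pool.Agent.H15.G.R_seed8.W611.Origin
import Pool.Agent.H15.G.R_seed8.W611.Swap
import Pool.Agent.H15.G.R_seed8.W611.Heal3

set_option autoImplicit false

/-!
# Peeling the first rows
-/

namespace Pool.Agent.W611

open Polynomial Pool.Agent.H932R2 Pool.Agent.H932R3 Pool.Agent.H932R7 Pool.Agent.W608

/-- The part of `Mfin d a b` with second exponent at least `u`. -/
def Tm (d a b u : ℕ) : Finset (ℕ × ℕ) := (Mfin d a b).filter fun p => u ≤ p.2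

theorem mem_Tm {d a b u i l : ℕ} :
    ((i, l) : ℕ × ℕ) ∈ Tm d a b u ↔ (i + l ≤ d ∧ a ≤ i + l ∧ i + b ≤ d) ∧ u ≤ l := by
  unfold Tm
  rw [Finset.mem_filter, mem_Mfin]

theorem card_Tm {d a b u : ℕ} (hb : u ≤ b) (hd : u ≤ d) :
    (Tm d a b u).card = (Mfin (d - u) (a - u) (b - u)).card := by
  refine Finset.card_bij' (fun p _ => (p.1, p.2 - u)) (fun p _ => (p.1, p.2 + u)) ?_ ?_ ?_ ?_
  · rintro ⟨i, l⟩ hp
    rw [mem_Tm] at hp
    rw [mem_Mfin]
    omega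
  · rintro ⟨i, l⟩ hp
    rw [mem_Mfin] at hp
    rw [mem_Tm]
    omega
  · rintro ⟨i, l⟩ hp
    rw [mem_Tm] at hp
    simp only
    rw [Prod.mk.injEq]
    exact ⟨rfl, by omega⟩
  · rintro ⟨i, l⟩ hp
    simp only
    rw [Prod.mk.injEq]
    exact ⟨rfl, by omega⟩

theorem domY_T {d a b u B : ℕ} (hb : u ≤ b) (hd : u ≤ d) (hB : d ≤ B) :
    DomY 0 B (↑(Tm d a b u) : Set (ℕ × ℕ)) (↑(Sfin (d - u) (b - u) (a - u)) : Set (ℕ × ℕ)) := by
  refine domY_of_inj fun i l hp => ?_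
  rw [Finset.mem_coe, mem_Sfin] at hp
  refine ⟨fun j => j + max u (a - i), fun x y _ _ hxy => by simpa using hxy, fun j hj => ?_⟩
  refine ⟨?_, by omega, fun x hx => ?_⟩
  · dsimp only
    omega
  · have : x = i := by omega
    subst this
    rw [Finset.mem_coe, mem_Tm]
    dsimp only
    omega

/-- Ranks on the upper part. -/
theorem rk_T {ι : Type} [Fintype ι] [DecidableEq ι] (w : ι → ℕ) (a0 b0 : ι) (hab : a0 ≠ b0)
    (d a b u N N' : ℕ) (ha0 : w a0 = a - u) (hb0 : w b0 = b - u) (hb : u ≤ b) (hd : u ≤ d)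
    (hd2 : (a - u) + (b - u) ≤ d - u + 1)
    (h : RkS (PF ℚ w) (Tset (d - u)) N)
    (hN : N' + (a - u + 1).choose 2 + (b - u + 1).choose 2 ≤ N) :
    RkS (PF ℚ (Function.update (Function.update w a0 0) b0 0))
      (↑(Tm d a b u) : Set (ℕ × ℕ)) N' := by
  have h1 := unproj w a0 b0 hab (d - u) N N' (by rw [ha0, hb0]; exact hd2) h
    (by rw [ha0, hb0]; exact hN)
  rw [ha0, hb0] at h1
  exact RkS.compressY (T_STAB ℚ _ _) 0 d (fun k hk _ => Nat.cast_ne_zero.2 (by omega))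
    (domY_T hb hd le_rfl) h1

section shapes

variable {K : Type*} [Field K] [Infinite K] {𝓘 : Set (Ideal K[X][X])} {n : ℕ}

/-- The first row of the upper part. -/
theorem top_row {d a b m X : ℕ} {R : Finset (ℕ × ℕ)} (hR : R ⊆ Tm d a b m)
    (hR0 : Tm d a b (m + 1) ⊆ R) (hX : X + R.card = (Tm d a b m).card) :
    ∃ A : Finset ℕ, A.card = X ∧ ∀ x ∈ A, x ≤ d ∧
      ((x, m) : ℕ × ℕ) ∈ (↑(Mfin d a b) : Set (ℕ × ℕ)) \ (↑R : Set (ℕ × ℕ)) := by
  classical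
  have h1 : ∀ p ∈ Tm d a b m \ R, p.2 = m := by
    rintro ⟨i, l⟩ hp
    rw [Finset.mem_sdiff] at hp
    by_contra hl
    refine hp.2 (hR0 ?_)
    have := hp.1
    rw [mem_Tm] at this ⊢
    simp only at hl
    omega
  refine ⟨(Tm d a b m \ R).image Prod.fst, ?_, fun x hx => ?_⟩
  · rw [Finset.card_image_of_injOn, Finset.card_sdiff_of_subset hR]
    · omega
    · intro p hp q hq hpq
      exact Prod.ext hpq ((h1 p hp).trans (h1 q hq).symm)
  · rw [Finset.mem_image] at hx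
    obtain ⟨⟨i, l⟩, hp, rfl⟩ := hx
    have h2 := h1 _ hp
    simp only at h2
    subst h2
    rw [Finset.mem_sdiff] at hp
    have h3 := hp.1
    rw [mem_Tm] at h3
    refine ⟨by simp only; omega, ?_, hp.2⟩
    rw [Finset.mem_coe, mem_Mfin]
    exact h3.1

/-- The ascending shape. -/
def Asc (m t X : ℕ) : Set (ℕ × ℕ) :=
  {p | (p.2 < m ∧ p.1 < t + 1 + p.2) ∨ (p.2 = m ∧ p.1 < X)}

theorem mem_Asc {m t X i l : ℕ} :
    ((i, l) : ℕ × ℕ) ∈ Asc m t X ↔ (l < m ∧ i < t + 1 + l) ∨ (l = m ∧ i < X) := Iff.rfl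

theorem peel1 (h𝓘 : Stable 𝓘) (hK : ∀ k : ℕ, 0 < k → (k : K) ≠ 0) {d a b m t X : ℕ}
    {R : Finset (ℕ × ℕ)} (ha : m < a) (hb : m < b) (hd : a + b + t = d)
    (hR : R ⊆ Tm d a b m) (hR0 : Tm d a b (m + 1) ⊆ R) (hX : X + R.card = (Tm d a b m).card)
    (hXt : X ≤ t) (h : RkS 𝓘 (Phi 1 m (1 * m + t) X) n) :
    RkS 𝓘 ((↑(Mfin d a b) : Set (ℕ × ℕ)) \ (↑R : Set (ℕ × ℕ))) n := by
  classical
  have hRm : ∀ i l, ((i, l) : ℕ × ℕ) ∈ R → m ≤ l := fun i l hp => (mem_Tm.1 (hR hp)).2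
  refine RkS.compressX h𝓘 d (fun k hk _ => hK k hk) (M' := Asc m t X) ?_ ?_
  · refine domX_of_card fun i q hp => ?_
    rw [mem_Asc] at hp
    rcases hp with ⟨hq, hi⟩ | ⟨rfl, hi⟩
    · refine ⟨(Finset.range (t + 1 + q)).image fun x => a - q + x, ?_, fun x hx => ?_⟩
      · rw [Finset.card_image_of_injective _ (add_right_injective _), Finset.card_range]
        exact hi
      · rw [Finset.mem_image] at hx
        obtain ⟨y, hy, rfl⟩ := hx
        rw [Finset.mem_range] at hy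
        refine ⟨by omega, ?_, fun hh => ?_⟩
        · rw [Finset.mem_coe, mem_Mfin]
          omega
        · have := hRm _ _ hh
          omega
    · obtain ⟨A, hA, hA'⟩ := top_row hR hR0 hX
      exact ⟨A, by omega, hA'⟩
  · refine RkS.compressY h𝓘 0 m (fun k hk _ => hK k hk) (M' := Phi 1 m (1 * m + t) X) ?_ h
    refine domY_of_inj fun i l hp => ?_
    rw [mem_Phi] at hp
    rcases hp with ⟨hl, hi⟩ | ⟨rfl, hi⟩
    · refine ⟨fun j => m - 1 - j, fun x y hx hy hxy => by simp only at hxy; omega,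
        fun j hj => ⟨by dsimp only; omega, by omega, fun x hx => ?_⟩⟩
      have : x = i := by omega
      subst this
      rw [mem_Asc]
      left
      dsimp only
      omega
    · refine ⟨fun j => j, fun x y _ _ hxy => hxy, fun j hj => ⟨hj, by omega, fun x hx => ?_⟩⟩
      have : x = i := by omega
      subst this
      rw [mem_Asc]
      dsimp only
      rcases Nat.lt_or_ge j l with h1 | h1
      · left
        omega
      · right
        omega

theorem peel0 (h𝓘 : Stable 𝓘) (hK : ∀ k : ℕ, 0 < k → (k : K) ≠ 0) {d b m t X : ℕ}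
    {R : Finset (ℕ × ℕ)} (hb : m < b) (hd : b + t = d + 1)
    (hR : R ⊆ Tm d 0 b m) (hR0 : Tm d 0 b (m + 1) ⊆ R) (hX : X + R.card = (Tm d 0 b m).card)
    (h : RkS 𝓘 (Phi 0 m (0 * m + t) X) n) :
    RkS 𝓘 ((↑(Mfin d 0 b) : Set (ℕ × ℕ)) \ (↑R : Set (ℕ × ℕ))) n := by
  classical
  have hRm : ∀ i l, ((i, l) : ℕ × ℕ) ∈ R → m ≤ l := fun i l hp => (mem_Tm.1 (hR hp)).2
  refine RkS.compressX h𝓘 d (fun k hk _ => hK k hk) (M' := Phi 0 m (0 * m + t) X) ?_ h
  refine domX_of_card fun i q hp => ?_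
  rw [mem_Phi] at hp
  rcases hp with ⟨hq, hi⟩ | ⟨rfl, hi⟩
  · refine ⟨Finset.range t, ?_, fun x hx => ?_⟩
    · rw [Finset.card_range]
      omega
    · rw [Finset.mem_range] at hx
      refine ⟨by omega, ?_, fun hh => ?_⟩
      · rw [Finset.mem_coe, mem_Mfin]
        omega
      · have := hRm _ _ hh
        omega
  · obtain ⟨A, hA, hA'⟩ := top_row hR hR0 hX
    exact ⟨A, by omega, hA'⟩

end shapes

/-- Placing the points of a set in the upper part. -/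
theorem place3 {ι : Type} [Fintype ι] (w : ι → ℕ) (S : Finset ι) (d m a b s₀ t A X : ℕ)
    (hm : 1 ≤ m) (hb : m < b)
    (hcase : (s₀ = 1 ∧ m < a ∧ a + b + t = d) ∨ (s₀ = 0 ∧ a = 0 ∧ b + t = d + 1))
    (hA : A = Aw (fun a : {a // a ∈ S} => w a))
    (h1 : RkS (PF ℚ (fun a : {a // a ∈ S} => w a)) (↑(Tm d a b m) : Set (ℕ × ℕ)) A)
    (h2 : RkS (PF ℚ (fun a : {a // a ∈ S} => w a)) (↑(Tm d a b (m + 1)) : Set (ℕ × ℕ))
      (Tm d a b (m + 1)).card)
    (hX : X + A = (Tm d a b m).card) (hX1 : m + 1 ≤ X) (hX2 : X ≤ t)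
    (hmt : (m + 1) * (2 * m + m * m + 2) ≤ 2 * (m * t)) (N : ℕ)
    (h : ∀ κ t' j, t' < s₀ + 2 * κ → j ≤ m + 1 →
      sz (s₀ + 2 * κ) m t' j = s₀ * m * (m + 1) + 2 * m * t + 2 * X →
        RkS (PF ℚ (fun a : {a // a ∉ S} => w a))
          (↑(Lfin (s₀ + 2 * κ) m t' j) : Set (ℕ × ℕ)) N) :
    RkS (PF ℚ w) (↑(Mfin d a b) : Set (ℕ × ℕ)) (A + N) := by
  classical
  have hK : ∀ k : ℕ, 0 < k → (k : ℚ) ≠ 0 := fun k hk => Nat.cast_ne_zero.2 (by omega)
  refine split_S w S (Mfin d a b) _ ?_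
  rw [hA]
  refine comb3 _ _ (Mfin d a b) (Tm d a b m) (Tm d a b (m + 1)) (d + 1)
    (Finset.filter_subset _ _) ?_ ?_ ?_ ?_ (by rw [← hA]; exact h1) h2 N ?_
  · rintro ⟨i, l⟩ hp
    rw [mem_Tm] at hp ⊢
    omega
  · rintro ⟨i, l⟩ hx ⟨i', l'⟩ hx' hxx
    rw [Finset.mem_coe, mem_Mfin] at hx hx'
    simp only at hxx
    have h1 : l = l' := by
      rcases Nat.lt_trichotomy l l' with h | h | h
      · have : (d + 1) * (l + 1) ≤ (d + 1) * l' := Nat.mul_le_mul_left _ h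
        rw [Nat.mul_add] at this
        omega
      · exact h
      · have : (d + 1) * (l' + 1) ≤ (d + 1) * l := Nat.mul_le_mul_left _ h
        rw [Nat.mul_add] at this
        omega
    subst h1
    rw [Prod.mk.injEq]
    exact ⟨by omega, rfl⟩
  · rintro ⟨i, l⟩ hx hx' ⟨i', l'⟩ hy
    rw [mem_Mfin] at hx
    rw [mem_Tm] at hx' hy
    have h1 : (d + 1) * (l + 1) ≤ (d + 1) * l' := Nat.mul_le_mul_left _ (by omega)
    rw [Nat.mul_add] at h1
    simp only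
    omega
  · rintro ⟨i, l⟩ hx hx' ⟨i', l'⟩ hy
    rw [mem_Tm] at hx hx' hy
    have h1 : (d + 1) * (l + 1) ≤ (d + 1) * l' := Nat.mul_le_mul_left _ (by omega)
    rw [Nat.mul_add] at h1
    simp only
    omega
  · intro R hR hR0 hRc
    rw [← hA] at hRc
    have hst := T_STAB ℚ _ (fun a : {a // a ∉ S} => w a)
    obtain ⟨g, hg⟩ : ∃ g, X + g = t := ⟨t - X, by omega⟩
    obtain ⟨κ, t', j, h3, h4, h5, h6⟩ := heal3 (n := N) hst m (fun k hk _ => hK k hk) m hm le_rfl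
      X hX1 g s₀ t (by
        have e1 : (m + 1) * (2 * t + m * s₀) = 2 * (m * t) + 2 * t + (m + 1) * (m * s₀) := by ring
        have e2 : 0 ≤ (m + 1) * (m * s₀) := Nat.zero_le _
        omega) hg
    have h7 := h6 (by
      rw [← coe_Lfin h3 h4]
      exact h κ t' j h3 h4 h5)
    rcases hcase with ⟨hs, ha, hd⟩ | ⟨hs, ha, hd⟩
    · subst hs
      exact peel1 hst hK ha hb hd hR hR0 (by omega) hX2 h7
    · subst hs
      subst ha
      exact peel0 hst hK hb hd hR hR0 (by omega) h7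

end Pool.Agent.W611
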