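import Mathlib
import Pool.Agent.H15.G.R_seed8.W611.CndH

set_option autoImplicit false

/-!
# The induction step
-/

namespace Pool.Agent.W611

open Polynomial Pool.Agent.H932R2 Pool.Agent.H932R3 Pool.Agent.H932R7 Pool.Agent.W608

/-- The multiplicities of the upper part. -/
def vP {ι : Type} [DecidableEq ι] (v : ι → ℕ) (a0 b0 : ι) (u : ℕ) (S : Finset ι) : ι → ℕ :=
  fun i => if i = a0 then v a0 - u else if i = b0 then v b0 - u else if i ∈ S then v i else 0

theorem vP_a {ι : Type} [DecidableEq ι] (v : ι → ℕ) (a0 b0 : ι) (u : ℕ) (S : Finset ι) :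
    vP v a0 b0 u S a0 = v a0 - u := by
  unfold vP
  rw [if_pos rfl]

theorem vP_b {ι : Type} [DecidableEq ι] (v : ι → ℕ) {a0 b0 : ι} (h : a0 ≠ b0) (u : ℕ)
    (S : Finset ι) : vP v a0 b0 u S b0 = v b0 - u := by
  unfold vP
  rw [if_neg h.symm, if_pos rfl]

theorem vP_o {ι : Type} [DecidableEq ι] (v : ι → ℕ) {a0 b0 i : ι} (h1 : i ≠ a0) (h2 : i ≠ b0)
    (u : ℕ) (S : Finset ι) : vP v a0 b0 u S i = if i ∈ S then v i else 0 := by
  unfold vP
  rw [if_neg h1, if_neg h2]

theorem vP_le {ι : Type} [DecidableEq ι] (v : ι → ℕ) (a0 b0 : ι) (u : ℕ) (S : Finset ι) (i : ι) :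
    vP v a0 b0 u S i ≤ v i := by
  unfold vP
  split_ifs with h1 h2 h3
  · rw [h1]
    omega
  · rw [h2]
    omega
  · exact le_rfl
  · exact Nat.zero_le _

theorem cnd_vP {m d : ℕ} {ι : Type} [Fintype ι] [DecidableEq ι] {v : ι → ℕ}
    {a0 b0 : ι} (hT : Two m v a0 b0) (hC : Cnd m d v) (u : ℕ) (hu : u = m ∨ u = m + 1)
    (S : Finset ι) : Cnd m (d - u) (vP v a0 b0 u S) := by
  obtain ⟨hne, hb, ha, hab, hmax⟩ := hT
  obtain ⟨h1, h2, h3, h4⟩ := hC
  have hbb := h2 b0 hb
  have ho : ∀ i, i ≠ a0 → i ≠ b0 → m < vP v a0 b0 u S i → m < v i ∧ vP v a0 b0 u S i = v i := by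
    intro i hia hib hi
    rw [vP_o v hia hib] at hi ⊢
    split_ifs at hi ⊢ with h
    · exact ⟨hi, rfl⟩
    · omega
  refine ⟨by omega, ?_, ?_, ?_⟩
  · intro i hi
    by_cases hia : i = a0
    · subst hia
      rw [vP_a] at hi ⊢
      have := h2 i (by omega)
      omega
    by_cases hib : i = b0
    · subst hib
      rw [vP_b v hne] at hi ⊢
      omega
    obtain ⟨g1, g2⟩ := ho i hia hib hi
    rw [g2]
    have := h3 i b0 hib g1 hb
    omega
  · have key : ∀ i j, i ≠ j → i ≠ b0 → m < vP v a0 b0 u S i → m < vP v a0 b0 u S j →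
        vP v a0 b0 u S i + vP v a0 b0 u S j + ff m ≤ d - u := by
      intro i j hij hib hi hj
      by_cases hia : i = a0
      · subst hia
        rw [vP_a] at hi ⊢
        by_cases hjb : j = b0
        · subst hjb
          rw [vP_b v hne] at hj ⊢
          have := h3 i j hij (by omega) hb
          omega
        · obtain ⟨g1, g2⟩ := ho j hij.symm hjb hj
          rw [g2]
          have := h3 i j hij (by omega) g1
          omega
      · obtain ⟨g1, g2⟩ := ho i hia hib hi
        rw [g2]
        have hle := hmax i hib g1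
        by_cases hja : j = a0
        · subst hja
          rw [vP_a] at hj ⊢
          have := h3 i j hij g1 (by omega)
          omega
        by_cases hjb : j = b0
        · subst hjb
          rw [vP_b v hne] at hj ⊢
          have := h3 i j hij g1 hb
          omega
        obtain ⟨g3, g4⟩ := ho j hja hjb hj
        rw [g4]
        have hle' := hmax j hjb g3
        obtain ⟨k1, k2⟩ := four_Nlg v hne (Ne.symm hia) (Ne.symm hja) (Ne.symm hib) (Ne.symm hjb)
          hij (by omega) hb g1 g3
        rcases h4 with h4 | h4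
        · omega
        · omega
    intro i j hij hi hj
    by_cases hib : i = b0
    · have := key j i hij.symm (by rw [hib] at hij; exact hij.symm) hj hi
      omega
    · exact key i j hij hib hi hj
  · have hN : Nlg m (vP v a0 b0 u S) ≤ Nlg m v := by
      unfold Nlg
      refine Finset.sum_le_sum fun i _ => ?_
      have := vP_le v a0 b0 u S i
      split_ifs <;> omega
    rcases ha with ha | ha
    · rcases h4 with h4 | h4
      · exact Or.inl (by omega)
      · right
        have h5 : Slg m (vP v a0 b0 u S) + 2 * u ≤ Slg m v := by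
          unfold Slg
          rw [sum_two hne, sum_two hne (fun i => if v i ≤ m then 0 else v i), vP_a,
            vP_b v hne, if_neg (not_le.2 ha), if_neg (not_le.2 hb)]
          have h6 : ∑ i ∈ Finset.univ.filter (fun i => i ≠ a0 ∧ i ≠ b0),
              (if vP v a0 b0 u S i ≤ m then 0 else vP v a0 b0 u S i) ≤
              ∑ i ∈ Finset.univ.filter (fun i => i ≠ a0 ∧ i ≠ b0),
              (if v i ≤ m then 0 else v i) := by
            refine Finset.sum_le_sum fun i _ => ?_
            have := vP_le v a0 b0 u S i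
            split_ifs <;> omega
          have h7 : (if v a0 - u ≤ m then 0 else v a0 - u) + u ≤ v a0 := by
            split_ifs <;> omega
          have h8 : (if v b0 - u ≤ m then 0 else v b0 - u) + u ≤ v b0 := by
            split_ifs <;> omega
          omega
        omega
    · left
      refine le_trans hN ?_
      unfold Nlg
      rw [sum_two hne, if_pos (by omega), if_neg (not_le.2 hb), Finset.sum_eq_zero]
      · omega
      · intro i hi
        rw [Finset.mem_filter] at hi
        rw [if_pos]
        by_contra hcon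
        have := hmax i hi.2.2 (by omega)
        omega

/-- The ranks, for all points. -/
def RanksUpTo (m d : ℕ) : Prop :=
  ∀ d' < d, ∀ (ι : Type) [Fintype ι] (v : ι → ℕ), Cnd m d' v →
    RkS (PF ℚ v) (Tset d') (min ((d' + 2).choose 2) (Aw v))

/-- Exact ranks near the critical degree. -/
theorem rankF (k₀ m : ℕ) (hk₀ : 0 < k₀) (hkm : k₀ ≤ m) (d : ℕ) (IH : RanksUpTo m d)
    (ι : Type) [Fintype ι] [DecidableEq ι] (v : ι → ℕ) (a0 b0 : ι) (hT : Two m v a0 b0)
    (hC : Cnd m d v)
    (htail : (∑ i, if v i < k₀ then v i * (v i + 1) else 0) ≤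
      ((m + 1) * (m + 1) + 2) * ((m + 1) * (m + 1) + 3))
    (hN1 : 2 * (d + 2).choose 2 < 2 * Aw v + k₀ * (k₀ + 1))
    (hN2 : 2 * Aw v < 2 * (d + 2).choose 2 + k₀ * (k₀ + 1))
    (hfr : m * (m + 1) * (m + 2) + k₀ * (k₀ + 1) ≤ Nat.card {i // v i = k₀} * (k₀ * (k₀ + 1))) :
    RkS (PF ℚ v) (Tset d) (min ((d + 2).choose 2) (Aw v)) := by
  classical
  have hm : 0 < m := by omega
  have hne := hT.ne
  have hb := hT.hb
  have hbb := hC.one b0 hb
  obtain ⟨s₀, t, hcase, ht, hstar⟩ := star hm hT hC
  have hAw : Aw v = (v a0 + 1).choose 2 + (v b0 + 1).choose 2 + Aw (rest v a0 b0) :=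
    sum_rest v hne (fun x => (x + 1).choose 2) (by simp)
  have hM := card_Mfin (d := d) (a := v a0) (b := v b0) (by omega)
  -- the other points
  have hE := rankE k₀ m hk₀ hkm ι (rest v a0 b0) d (v a0) (v b0) s₀ t hb hcase ht ?_ (by omega)
    (by omega) ?_ ?_
  · have hmin : min ((d + 2).choose 2) (Aw v) = (v b0 + 1).choose 2 +
        ((v a0 + 1).choose 2 + min (Mfin d (v a0) (v b0)).card (Aw (rest v a0 b0))) := by
      omega
    rw [hmin]
    refine add_corner ℚ v b0 d _ (by omega) (by omega) ?_
    refine add_origin ℚ (Function.update v b0 0) a0 (v a0) (Function.update_of_ne hne _ _)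
      (↑(Mfin d (v a0) (v b0)) : Set (ℕ × ℕ)) _ ?_ ?_ ?_ _ ?_
    · rintro ⟨i, l⟩ hp
      rw [Finset.mem_coe, mem_Mfin] at hp ⊢
      omega
    · rintro ⟨i, l⟩ hp
      rw [Finset.mem_coe, mem_Mfin] at hp
      exact hp.2.1
    · rintro ⟨i, l⟩ hp
      rw [Finset.mem_coe, mem_Ofin] at hp
      rw [Finset.mem_coe, mem_Mfin]
      omega
    · have e : Function.update (Function.update v b0 0) a0 0 = rest v a0 b0 := by
        unfold rest
        exact Function.update_comm hne.symm _ _ _
      rw [e]
      exact hE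
  · refine le_trans (Nat.add_le_add_right (Nat.add_le_add_right (le_trans
      (Finset.sum_le_sum fun i _ => ?_) htail) _) _) hstar
    by_cases hib : i = b0
    · subst hib
      rw [rest_b, Nat.zero_mul]
      split_ifs <;> exact Nat.zero_le _
    by_cases hia : i = a0
    · subst hia
      rw [rest_a v hne, Nat.zero_mul]
      split_ifs <;> exact Nat.zero_le _
    rw [rest_o v hia hib]
  · refine le_trans hfr (Nat.mul_le_mul_right _ ?_)
    refine Nat.card_le_card_of_injective (fun i => ⟨i.1, ?_⟩) ?_
    · have h1 := i.2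
      rw [rest_o v ?_ ?_]
      · exact h1
      · intro hi
        rw [hi] at h1
        rcases hT.ha with h2 | h2 <;> omega
      · intro hi
        rw [hi] at h1
        omega
    · intro i j hij
      exact Subtype.ext (congrArg (fun x => (x.1 : ι)) hij)
  · intro S hS hS1 hS2
    -- the ranks on the upper part
    obtain ⟨A, hA⟩ : ∃ A, A = Aw (fun i : {i // i ∈ S} => rest v a0 b0 i) := ⟨_, rfl⟩
    have hAS : A = ∑ i ∈ Finset.univ.filter (fun i => i ≠ a0 ∧ i ≠ b0),
        if i ∈ S then (v i + 1).choose 2 else 0 := by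
      rw [hA]
      unfold Aw
      rw [Finset.sum_coe_sort S fun i => (rest v a0 b0 i + 1).choose 2,
        ← Finset.sum_filter_add_sum_filter_not S (fun i => i ≠ a0 ∧ i ≠ b0),
        Finset.sum_eq_zero (s := S.filter fun i => ¬ (i ≠ a0 ∧ i ≠ b0)), add_zero,
        ← Finset.sum_filter, Finset.filter_filter]
      · have e : S.filter (fun i => i ≠ a0 ∧ i ≠ b0) =
            Finset.univ.filter (fun i => (i ≠ a0 ∧ i ≠ b0) ∧ i ∈ S) := by
          ext i
          simp only [Finset.mem_filter, Finset.mem_univ, true_and]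
          tauto
        rw [e]
        refine Finset.sum_congr rfl fun i hi => ?_
        rw [Finset.mem_filter] at hi
        rw [rest_o v hi.2.1.1 hi.2.1.2]
      · intro i hi
        rw [Finset.mem_filter] at hi
        have h1 : i = a0 ∨ i = b0 := by
          by_contra hcon
          push Not at hcon
          exact hi.2 hcon
        rcases h1 with h1 | h1
        · rw [h1, rest_a v hne]
          rfl
        · rw [h1, rest_b]
          rfl
    have hAP : ∀ u, Aw (vP v a0 b0 u S) = (v a0 - u + 1).choose 2 + (v b0 - u + 1).choose 2 + A := by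
      intro u
      unfold Aw
      rw [sum_two hne, vP_a, vP_b v hne, hAS]
      congr 1
      refine Finset.sum_congr rfl fun i hi => ?_
      rw [Finset.mem_filter] at hi
      rw [vP_o v hi.2.1 hi.2.2]
      split_ifs <;> rfl
    have hrk : ∀ u, (u = m ∨ u = m + 1) → ∀ N', N' ≤ (Tm d (v a0) (v b0) u).card → N' ≤ A →
        RkS (PF ℚ (fun i : {i // i ∈ S} => rest v a0 b0 i))
          (↑(Tm d (v a0) (v b0) u) : Set (ℕ × ℕ)) N' := by
      intro u hu N' h1 h2
      have h3 := IH (d - u) (by omega) ι (vP v a0 b0 u S) (cnd_vP hT hC u hu S)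
      rw [card_Tm (by omega) (by omega)] at h1
      have h4 := card_Mfin (d := d - u) (a := v a0 - u) (b := v b0 - u) (by
        rcases hT.ha with h | h
        · have := hC.two a0 b0 hne h hb
          omega
        · omega)
      have h5 := rk_T (vP v a0 b0 u S) a0 b0 hne d (v a0) (v b0) u _ N' (vP_a v a0 b0 u S)
        (vP_b v hne u S) (by omega) (by omega) (by
          rcases hT.ha with h | h
          · have := hC.two a0 b0 hne h hb
            omega
          · omega) h3 (by
          rw [hAP]
          omega)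
      have hz : ∀ i, Function.update (Function.update (vP v a0 b0 u S) a0 0) b0 0 i ≠ 0 →
          i ∈ S ∧ Function.update (Function.update (vP v a0 b0 u S) a0 0) b0 0 i =
            rest v a0 b0 i := by
        intro i hi
        by_cases hib : i = b0
        · subst hib
          simp at hi
        by_cases hia : i = a0
        · subst hia
          rw [Function.update_of_ne hib] at hi
          simp at hi
        rw [Function.update_of_ne hib, Function.update_of_ne hia, vP_o v hia hib] at hi ⊢
        rw [rest_o v hia hib]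
        split_ifs at hi ⊢ with h
        · exact ⟨h, rfl⟩
        · exact absurd rfl hi
      exact (t_tr ℚ ι {i // i ∈ S} _ (fun i : {i // i ∈ S} => rest v a0 b0 i)
        ⟨fun i => ⟨i.1, (hz i.1 i.2).1⟩, fun i j hij =>
          Subtype.ext (congrArg (fun x => (x.1 : ι)) hij)⟩ (fun i => (hz i.1 i.2).2.le)
        (Tm d (v a0) (v b0) u)).2 N' h5
    rw [← hA] at hS1 hS2 ⊢
    exact ⟨hrk m (Or.inl rfl) A hS1 le_rfl, hrk (m + 1) (Or.inr rfl) _ le_rfl hS2⟩

end Pool.Agent.W611
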