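import Mathlib
import Pool.Agent.H15.G.R_seed8.W611.MainH

set_option autoImplicit false

/-!
# Exact ranks when the large multiplicities are far from the degree
-/

namespace Pool.Agent.W611

open Polynomial Pool.Agent.H932R2 Pool.Agent.H932R3 Pool.Agent.H932R7 Pool.Agent.W608

/-- A frequent multiplicity. -/
theorem exists_rich' {ι : Type} [Fintype ι] (w : ι → ℕ) (m d : ℕ)
    (hd : 2 * Alg m w + m * (m * (m + 1) * (m + 3)) + m * (m + 1) ≤ (d + 1) * (d + 2))
    (hA : (d + 1) * (d + 2) < 2 * Aw w + m * (m + 1)) :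
    ∃ k₀, 0 < k₀ ∧ k₀ ≤ m ∧
      m * (m + 1) * (m + 3) ≤ Nat.card {a // w a = k₀} * (k₀ * (k₀ + 1)) ∧
      (∑ a, if w a < k₀ then w a * (w a + 1) else 0) ≤
        ((m + 1) * (m + 1) + 2) * ((m + 1) * (m + 1) + 3) := by
  classical
  have hex : ∃ k, 1 ≤ k ∧ k ≤ m ∧
      m * (m + 1) * (m + 3) ≤ Nat.card {a // w a = k} * (k * (k + 1)) := by
    by_contra hcon
    push Not at hcon
    have h1 := tail_le w (m * (m + 1) * (m + 3)) m fun k hk hk' => (hcon k hk (by omega)).le
    have h2 : (∑ a, if w a < m + 1 then w a * (w a + 1) else 0) = 2 * Asm m w := by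
      unfold Asm
      rw [Finset.mul_sum]
      refine Finset.sum_congr rfl fun a _ => ?_
      by_cases h : w a ≤ m
      · rw [if_pos (by omega), if_pos h, two_choose']
      · rw [if_neg (by omega), if_neg h, mul_zero]
    have h3 := Asm_add_Alg m w
    omega
  obtain ⟨hf0, hf1, hf2⟩ := Nat.find_spec hex
  have hfmin := fun k => Nat.find_min hex (m := k)
  obtain ⟨k₀, hk₀⟩ : ∃ k₀, k₀ = Nat.find hex := ⟨_, rfl⟩
  rw [← hk₀] at hf0 hf1 hf2 hfmin
  refine ⟨k₀, hf0, hf1, hf2, ?_⟩
  obtain ⟨κ, hκ⟩ : ∃ κ, k₀ = κ + 1 := ⟨k₀ - 1, by omega⟩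
  have h3 := tail_le w (m * (m + 1) * (m + 3)) κ fun k hk hk' => by
    by_contra h4
    exact hfmin k (by omega) ⟨hk, by omega, (not_le.1 h4).le⟩
  rw [hκ]
  exact le_trans h3 (numD (by omega))

theorem numRich {m t : ℕ} (ht : ff m ≤ t) :
    m * (m * (m + 1) * (m + 3)) + m * (m + 1) ≤
      ((m + 1) * (m + 1) + 2) * ((m + 1) * (m + 1) + 3) + 2 * t + 2 * m * t := by
  unfold ff at ht
  obtain ⟨y, rfl⟩ := Nat.exists_eq_add_of_le ht
  have : ((m + 1) * (m + 1) + 2) * ((m + 1) * (m + 1) + 3) +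
      2 * (2 * (m * m) + 3 * m + 2 + y) + 2 * m * (2 * (m * m) + 3 * m + 2 + y) =
      m * (m * (m + 1) * (m + 3)) + m * (m + 1) +
        (4 * (m * m * m) + 17 * (m * m) + 23 * m + 2 * y + 2 * (m * y) + 16) := by ring
  omega

theorem Aw_zero {ι : Type} [Fintype ι] (v : ι → ℕ) :
    Aw (Sum.elim v (fun _ : Fin 1 => 0)) = Aw v := by
  unfold Aw
  rw [Fintype.sum_sum_type]
  simp

/-- The large points. -/
theorem alg_bound {m d : ℕ} (hm : 0 < m) {ι : Type} [Fintype ι] {v : ι → ℕ} (hC : Cnd m d v)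
    (hl : ∃ i, m < v i) :
    2 * Alg m v + m * (m * (m + 1) * (m + 3)) + m * (m + 1) ≤ (d + 1) * (d + 2) := by
  classical
  obtain ⟨a0, b0, hT⟩ := exists_two v hl
  have hC' := hC.add 1 0 (Nat.zero_le _)
  obtain ⟨v', hv'⟩ : ∃ v' : ι ⊕ Fin 1 → ℕ, v' = Sum.elim v (fun _ : Fin 1 => 0) := ⟨_, rfl⟩
  rw [← hv'] at hT hC'
  have hne := hT.ne
  have hb := hT.hb
  have hbb := hC'.one b0 hb
  obtain ⟨s₀, t, hcase, ht, hstar⟩ := star hm hT hC'
  have h1 : Alg m v' = Alg m v := by
    unfold Alg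
    rw [hv', Fintype.sum_sum_type]
    have h1 : ∑ b : Fin 1, (if Sum.elim v (fun _ : Fin 1 => 0) (Sum.inr b) ≤ m then 0 else
        (Sum.elim v (fun _ : Fin 1 => 0) (Sum.inr b) + 1).choose 2) = 0 :=
      Finset.sum_eq_zero fun b _ => if_pos (Nat.zero_le _)
    exact Nat.add_eq_left.2 h1
  have h2 : Alg m v' = (if v' a0 ≤ m then 0 else (v' a0 + 1).choose 2) +
      (if v' b0 ≤ m then 0 else (v' b0 + 1).choose 2) + Alg m (rest v' a0 b0) :=
    sum_rest v' hne (fun x => if x ≤ m then 0 else (x + 1).choose 2) (by simp)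
  rw [if_neg (not_le.2 hb)] at h2
  have h3 : (if v' a0 ≤ m then 0 else (v' a0 + 1).choose 2) ≤ (v' a0 + 1).choose 2 := by
    split_ifs <;> omega
  have h4 := card_Mfin (d := d) (a := v' a0) (b := v' b0) (by omega)
  obtain ⟨h5, -⟩ := card_rel hb (le_trans (by unfold ff; omega) ht) hcase
  have h6 := R3h.two_choose' d
  have h7 := numRich ht
  have h8 : 0 ≤ s₀ * m * (m + 1) := Nat.zero_le _
  omega

/-- Exact ranks near the critical degree. -/
theorem near_step (k₀ m : ℕ) (hk₀ : 0 < k₀) (hkm : k₀ ≤ m) (d : ℕ) (IH : RanksUpTo m d)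
    (ι : Type) [Fintype ι] (v : ι → ℕ) (hC : Cnd m d v) (hl : ∃ i, m < v i)
    (htail : (∑ i, if v i < k₀ then v i * (v i + 1) else 0) ≤
      ((m + 1) * (m + 1) + 2) * ((m + 1) * (m + 1) + 3))
    (hN1 : 2 * (d + 2).choose 2 < 2 * Aw v + k₀ * (k₀ + 1))
    (hN2 : 2 * Aw v < 2 * (d + 2).choose 2 + k₀ * (k₀ + 1))
    (hfr : m * (m + 1) * (m + 2) + k₀ * (k₀ + 1) ≤ Nat.card {i // v i = k₀} * (k₀ * (k₀ + 1))) :
    RkS (PF ℚ v) (Tset d) (min ((d + 2).choose 2) (Aw v)) := by
  classical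
  obtain ⟨a0, b0, hT⟩ := exists_two v hl
  have hC' := hC.add 1 0 (Nat.zero_le _)
  have h := rankF k₀ m hk₀ hkm d IH (ι ⊕ Fin 1) _ a0 b0 hT hC' (by
      rw [Fintype.sum_sum_type]
      refine le_trans (le_of_eq ?_) htail
      have h1 : (∑ b : Fin 1, if Sum.elim v (fun _ : Fin 1 => 0) (Sum.inr b) < k₀ then
          Sum.elim v (fun _ : Fin 1 => 0) (Sum.inr b) *
            (Sum.elim v (fun _ : Fin 1 => 0) (Sum.inr b) + 1) else 0) = 0 := by
        refine Finset.sum_eq_zero fun b _ => ?_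
        simp
      exact Nat.add_eq_left.2 h1)
    (by rw [Aw_zero]; exact hN1) (by rw [Aw_zero]; exact hN2) (by
      refine le_trans hfr (Nat.mul_le_mul_right _ ?_)
      refine Nat.card_le_card_of_injective (fun i => ⟨Sum.inl i.1, i.2⟩) ?_
      intro i j hij
      exact Subtype.ext (Sum.inl_injective (congrArg (fun x => x.1) hij)))
  rw [Aw_zero, ← coe_Tfin] at h
  rw [← coe_Tfin]
  obtain ⟨i0, -⟩ := hl
  refine (t_tr ℚ (ι ⊕ Fin 1) ι (Sum.elim v (fun _ : Fin 1 => 0)) v
    ⟨fun x => Sum.elim id (fun _ => i0) x.1, ?_⟩ ?_ (Tfin d)).2 _ h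
  · rintro ⟨x | x, hx⟩ ⟨y | y, hy⟩ hxy
    · simp only [Sum.elim_inl, id] at hxy
      subst hxy
      rfl
    · simp at hy
    · simp at hx
    · simp at hx
  · rintro ⟨x | x, hx⟩
    · exact le_rfl
    · simp at hx

/-- The ranks in every degree. -/
theorem rankH (m : ℕ) (hm : 0 < m) (d : ℕ) : ∀ (ι : Type) [Fintype ι] (v : ι → ℕ),
    Cnd m d v → RkS (PF ℚ v) (Tset d) (min ((d + 2).choose 2) (Aw v)) := by
  classical
  induction d using Nat.strong_induction_on with
  | _ d IH =>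
    intro ι _ w hC
    by_cases hl : ∃ i, m < w i
    swap
    · push Not at hl
      refine rankD m hm ι w d ?_
      have h1 : Slg m w = 0 := by
        unfold Slg
        exact Finset.sum_eq_zero fun i _ => if_pos (hl i)
      have h2 := hC.le
      unfold ff at h2
      have h3 : (m + 1) * (0 + 2 * m + 1) + 1 = 2 * (m * m) + 3 * m + 2 := by ring
      rw [h1]
      omega
    have IH' : RanksUpTo m d := IH
    obtain ⟨N, hN⟩ : ∃ N, N = (d + 2).choose 2 := ⟨_, rfl⟩
    have hN2 : 2 * N = (d + 1) * (d + 2) := by rw [hN]; exact R3h.two_choose' d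
    rw [← hN]
    rcases Nat.le_total (Aw w) N with hAN | hNA
    · -- adding points of multiplicity `m`, then of multiplicity `k₀`
      rw [min_eq_right hAN]
      obtain ⟨c, hc⟩ : ∃ c, c = (m + 1).choose 2 := ⟨_, rfl⟩
      have hc2 : 2 * c = m * (m + 1) := by rw [hc]; exact two_choose' m
      have hc0 : 0 < c := by
        rw [hc]
        exact Nat.choose_pos (by omega)
      obtain ⟨x, hx⟩ : ∃ x, x = (N - Aw w) / c := ⟨_, rfl⟩
      have hx1 : x * c ≤ N - Aw w := by
        rw [hx]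
        exact Nat.div_mul_le_self _ _
      have hx2 : N - Aw w < x * c + c := by
        rw [hx]
        exact Nat.lt_div_mul_add hc0
      obtain ⟨w1, hw1⟩ : ∃ w1 : ι ⊕ Fin x → ℕ, w1 = Sum.elim w (fun _ : Fin x => m) := ⟨_, rfl⟩
      have hA1 : Aw w1 = Aw w + x * c := by
        unfold Aw
        rw [hw1, Fintype.sum_sum_type]
        simp only [Sum.elim_inl, Sum.elim_inr, Finset.sum_const, Finset.card_univ,
          Fintype.card_fin, smul_eq_mul]
        rw [← hc]
      have hC1 : Cnd m d w1 := by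
        rw [hw1]
        exact hC.add x m le_rfl
      have hl1 : ∃ i, m < w1 i := by
        obtain ⟨i, hi⟩ := hl
        exact ⟨Sum.inl i, by rw [hw1]; exact hi⟩
      obtain ⟨k₀, h0, h1, h2, h3⟩ := exists_rich' w1 m d (alg_bound hm hC1 hl1) (by omega)
      obtain ⟨c₀, hc₀⟩ : ∃ c₀, c₀ = (k₀ + 1).choose 2 := ⟨_, rfl⟩
      have hc₀2 : 2 * c₀ = k₀ * (k₀ + 1) := by rw [hc₀]; exact two_choose' k₀
      have hc₀0 : 0 < c₀ := by
        rw [hc₀]
        exact Nat.choose_pos (by omega)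
      obtain ⟨y, hy⟩ : ∃ y, y = (N - Aw w1) / c₀ := ⟨_, rfl⟩
      have hy1 : y * c₀ ≤ N - Aw w1 := by
        rw [hy]
        exact Nat.div_mul_le_self _ _
      have hy2 : N - Aw w1 < y * c₀ + c₀ := by
        rw [hy]
        exact Nat.lt_div_mul_add hc₀0
      obtain ⟨w2, hw2⟩ : ∃ w2 : (ι ⊕ Fin x) ⊕ Fin y → ℕ,
        w2 = Sum.elim w1 (fun _ : Fin y => k₀) := ⟨_, rfl⟩
      have hA2 : Aw w2 = Aw w1 + y * c₀ := by
        unfold Aw
        rw [hw2, Fintype.sum_sum_type]
        simp only [Sum.elim_inl, Sum.elim_inr, Finset.sum_const, Finset.card_univ,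
          Fintype.card_fin, smul_eq_mul]
        rw [← hc₀]
      have hC2 : Cnd m d w2 := by
        rw [hw2]
        exact hC1.add y k₀ h1
      have hl2 : ∃ i, m < w2 i := by
        obtain ⟨i, hi⟩ := hl1
        exact ⟨Sum.inl i, by rw [hw2]; exact hi⟩
      have hq : k₀ * (k₀ + 1) ≤ m * (m + 1) := Nat.mul_le_mul h1 (by omega)
      have h := near_step k₀ m h0 h1 d IH' _ w2 hC2 hl2
        (by
          rw [hw2, Fintype.sum_sum_type]
          have h4 : (∑ b : Fin y, if Sum.elim w1 (fun _ : Fin y => k₀) (Sum.inr b) < k₀ then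
              Sum.elim w1 (fun _ : Fin y => k₀) (Sum.inr b) *
                (Sum.elim w1 (fun _ : Fin y => k₀) (Sum.inr b) + 1) else 0) = 0 :=
            Finset.sum_eq_zero fun b _ => if_neg (lt_irrefl _)
          rw [h4, add_zero]
          exact h3)
        (by rw [← hN]; omega) (by rw [← hN]; omega)
        (by
          have h4 : Nat.card {a // w1 a = k₀} ≤ Nat.card {a // w2 a = k₀} := by
            refine Nat.card_le_card_of_injective (fun a => ⟨Sum.inl a.1, ?_⟩) ?_
            · rw [hw2]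
              exact a.2
            · intro a b hab
              have h5 := congrArg Subtype.val hab
              exact Subtype.ext (Sum.inl_injective h5)
          have h5 := Nat.mul_le_mul_right (k₀ * (k₀ + 1)) h4
          have h6 : m * (m + 1) * (m + 3) = m * (m + 1) * (m + 2) + m * (m + 1) := by ring
          omega)
      rw [← hN, min_eq_right (by omega), ← coe_Tfin] at h
      rw [← coe_Tfin]
      refine (t_tr ℚ ι ((ι ⊕ Fin x) ⊕ Fin y) w w2
        ⟨fun a => Sum.inl (Sum.inl a.1), fun a b hab => ?_⟩ (fun a => ?_) (Tfin d)).1 h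
      · exact Subtype.ext (Sum.inl_injective (Sum.inl_injective hab))
      · rw [hw2, hw1]
        exact le_rfl
    · -- removing points
      rw [min_eq_left hNA]
      obtain ⟨f, hf⟩ : ∃ f : ι → ℕ, f = fun a => (w a + 1).choose 2 := ⟨_, rfl⟩
      have hfa : ∀ a, f a = (w a + 1).choose 2 := fun a => by rw [hf]
      obtain ⟨Lg, hLg⟩ : ∃ Lg, Lg = Finset.univ.filter fun a => ¬ w a ≤ m := ⟨_, rfl⟩
      have hLmem : ∀ a, a ∈ Lg ↔ ¬ w a ≤ m := fun a => by rw [hLg]; simp
      have hAf : Aw w = ∑ a, f a := by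
        unfold Aw
        exact Finset.sum_congr rfl fun a _ => (hfa a).symm
      obtain ⟨S, hS, hSmin⟩ := Finset.exists_min_image
        ((Finset.univ : Finset ι).powerset.filter fun S => Lg ⊆ S ∧ N ≤ ∑ a ∈ S, f a)
        Finset.card ⟨Finset.univ, by
          rw [Finset.mem_filter, Finset.mem_powerset]
          exact ⟨Finset.Subset.refl _, Finset.subset_univ _, by rw [← hAf]; exact hNA⟩⟩
      rw [Finset.mem_filter] at hS
      obtain ⟨-, hS1, hS2⟩ := hS
      have hSer : ∀ a ∈ S, w a ≤ m → ∑ b ∈ S, f b < N + f a := by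
        intro a ha ham
        by_contra hcon
        have h1 : ∑ b ∈ S.erase a, f b + f a = ∑ b ∈ S, f b := Finset.sum_erase_add _ _ ha
        have h2 := hSmin (S.erase a) (by
          rw [Finset.mem_filter, Finset.mem_powerset]
          refine ⟨Finset.subset_univ _, ?_, by omega⟩
          intro b hb
          rw [Finset.mem_erase]
          refine ⟨?_, hS1 hb⟩
          rintro rfl
          exact (hLmem _).1 hb ham)
        rw [Finset.card_erase_of_mem ha] at h2
        have h3 : 0 < S.card := Finset.card_pos.2 ⟨a, ha⟩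
        omega
      obtain ⟨w1, hw1⟩ : ∃ w1 : {a // a ∈ S} → ℕ, w1 = fun a : {a // a ∈ S} => w a :=
        ⟨_, rfl⟩
      have hA1 : Aw w1 = ∑ a ∈ S, f a := by
        unfold Aw
        rw [hw1, Finset.sum_coe_sort S fun a => (w a + 1).choose 2]
        exact Finset.sum_congr rfl fun a _ => (hfa a).symm
      have hSL : ∀ i, m < w i → i ∈ S := fun i hi => hS1 ((hLmem i).2 (by omega))
      have hC1 : Cnd m d w1 := by
        rw [hw1]
        exact hC.sub S hSL
      have hl1 : ∃ i, m < w1 i := by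
        obtain ⟨i, hi⟩ := hl
        exact ⟨⟨i, hSL i hi⟩, by rw [hw1]; exact hi⟩
      obtain ⟨k₀, h0, h1, h2, h3⟩ := exists_rich' w1 m d (alg_bound hm hC1 hl1) (by
        have : 0 < m * (m + 1) := by positivity
        omega)
      have hF0 : 0 < m * (m + 1) * (m + 3) := by positivity
      obtain ⟨a, ha⟩ : ∃ a : {a // a ∈ S}, w1 a = k₀ := by
        by_contra hcon
        push Not at hcon
        have h4 : Nat.card {a // w1 a = k₀} = 0 := by
          rw [Nat.card_eq_zero]
          left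
          exact ⟨fun a => hcon a.1 a.2⟩
        rw [h4, zero_mul] at h2
        omega
      have hak : w a.1 = k₀ := by
        rw [← ha, hw1]
      have h4 := hSer a.1 a.2 (by omega)
      rw [hfa, hak] at h4
      have hc₀2 := two_choose' k₀
      have hq : k₀ * (k₀ + 1) ≤ m * (m + 1) := Nat.mul_le_mul h1 (by omega)
      have hq0 : 0 < k₀ * (k₀ + 1) := by positivity
      have h := near_step k₀ m h0 h1 d IH' _ w1 hC1 hl1 h3
        (by rw [← hN]; omega) (by rw [← hN]; omega)
        (by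
          have h6 : m * (m + 1) * (m + 3) = m * (m + 1) * (m + 2) + m * (m + 1) := by ring
          omega)
      rw [← hN, min_eq_left (by omega), ← coe_Tfin] at h
      rw [← coe_Tfin]
      have hle : ∀ a : {a // a ∈ S}, w1 a ≤ w a.1 := by
        rw [hw1]
        exact fun a => le_rfl
      exact (t_tr ℚ {a // a ∈ S} ι w1 w
        ⟨fun a => a.1.1, fun a b hab => Subtype.ext (Subtype.ext hab)⟩ (fun a => hle a.1)
        (Tfin d)).2 _ h

end Pool.Agent.W611
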