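import Mathlib
import Pool.Agent.H15.G.R_seed8.W611.Rank2
import Pool.Agent.H15.G.R_seed8.H248R6.NearAll

set_option autoImplicit false

/-!
# Smooth general members in all degrees at least quadratic in the multiplicities
-/

namespace Pool.Agent.W611

open MvPolynomial Pool.Agent.H248R5 Pool.Agent.H248R6 Pool.Agent.H932R7

theorem Slg_mono {n : ℕ} {m m' : ℕ} (hm : m' ≤ m) (w v : Fin n → ℕ) (h : ∀ i, v i ≤ w i) :
    Slg m v ≤ Slg m' w := by
  unfold Slg
  refine Finset.sum_le_sum fun i _ => ?_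
  have := h i
  split_ifs <;> omega

/-- The sum of the numbers `w i + 1`, for the multiplicities that are at least `m`. -/
def Sge {n : ℕ} (m : ℕ) (w : Fin n → ℕ) : ℕ := ∑ i, if m ≤ w i then w i + 1 else 0

theorem Slg_le_Sge {n : ℕ} (m : ℕ) (w v : Fin n → ℕ) (h : ∀ i, v i ≤ w i + 1) :
    Slg m v ≤ Sge m w := by
  unfold Slg Sge
  refine Finset.sum_le_sum fun i _ => ?_
  have := h i
  split_ifs <;> omega

theorem Aw_up {n : ℕ} (w : Fin n → ℕ) (k : Fin n) :
    ∑ i, (Function.update w k (w k + 1) i + 1).choose 2 = (∑ i, (w i + 1).choose 2) + w k + 1 := by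
  classical
  rw [← Finset.add_sum_erase _ _ (Finset.mem_univ k),
    ← Finset.add_sum_erase _ (fun i => (w i + 1).choose 2) (Finset.mem_univ k),
    Function.update_self]
  have h1 : ∑ i ∈ Finset.univ.erase k, (Function.update w k (w k + 1) i + 1).choose 2 =
      ∑ i ∈ Finset.univ.erase k, (w i + 1).choose 2 := by
    refine Finset.sum_congr rfl fun i hi => ?_
    rw [Function.update_of_ne (Finset.ne_of_mem_erase hi)]
  rw [h1]
  have h2 : (w k + 1 + 1).choose 2 = (w k + 1) + (w k + 1).choose 2 := by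
    rw [Nat.choose_succ_succ' (w k + 1) 1, Nat.choose_one_right]
  omega

theorem Aw_low {n : ℕ} (w : Fin n → ℕ) :
    ∑ i, (w i - 1 + 1).choose 2 + ∑ i, w i = ∑ i, (w i + 1).choose 2 := by
  rw [← Finset.sum_add_distrib]
  refine Finset.sum_congr rfl fun i _ => ?_
  rcases Nat.eq_zero_or_pos (w i) with h | h
  · rw [h]
    rfl
  · have h1 : w i - 1 + 1 = w i := by omega
    have h2 : (w i + 1).choose 2 = w i + (w i).choose 2 := by
      rw [Nat.choose_succ_succ' (w i) 1, Nat.choose_one_right]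
    rw [h1, h2]
    omega

theorem choose_le_sum {n : ℕ} (w : Fin n → ℕ) :
    ∑ i, (w i - 1 + 1).choose 2 ≤ (∑ i, w i).choose 2 := by
  classical
  have key : ∀ S : Finset (Fin n), ∑ i ∈ S, (w i - 1 + 1).choose 2 ≤ (∑ i ∈ S, w i).choose 2 := by
    intro S
    induction S using Finset.induction_on with
    | empty => simp
    | insert a S ha ih =>
      rw [Finset.sum_insert ha, Finset.sum_insert ha]
      refine le_trans (Nat.add_le_add_left ih _) ?_
      have h1 : (w a - 1 + 1).choose 2 ≤ (w a).choose 2 := by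
        rcases Nat.eq_zero_or_pos (w a) with h | h
        · rw [h]
          decide
        · have h1 : w a - 1 + 1 = w a := by omega
          rw [h1]
      refine le_trans (Nat.add_le_add_right h1 _) ?_
      obtain ⟨x, hx⟩ : ∃ x, x = w a := ⟨_, rfl⟩
      obtain ⟨y, hy⟩ : ∃ y, y = ∑ i ∈ S, w i := ⟨_, rfl⟩
      rw [← hx, ← hy]
      have h2 : ∀ z : ℕ, 2 * z.choose 2 + z = z * z := by
        intro z
        induction z with
        | zero => rfl
        | succ z ihz =>
          rw [Nat.choose_succ_succ' z 1, Nat.choose_one_right]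
          nlinarith
      have h3 := h2 x
      have h4 := h2 y
      have h5 := h2 (x + y)
      nlinarith [Nat.zero_le (x * y)]
  exact key Finset.univ

/-- Smooth general members, one hypersurface for all degrees. -/
theorem smooth_quad {K : Type} [Field K] [CharZero K] {n : ℕ} (m : ℕ) (hm : 0 < m)
    (w : Fin n → ℕ) (D : ℕ) (hD : (m + 1) * (Sge m w + 2 * m + 1) + 2 ≤ D) :
    ∃ F : MvPolynomial (Fin n × Fin 2) ℚ, F ≠ 0 ∧ ∀ P : Fin n → Fin 2 → K,
      aeval (fun ij : Fin n × Fin 2 => P ij.1 ij.2) F ≠ 0 → ∀ d, D ≤ d →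
        Module.finrank K ↥(forms w P d) = (d + 2).choose 2 - ∑ i, (w i + 1).choose 2 ∧
        ((∀ i, (∑ j, (w j + 1).choose 2) + w i + 1 ≤ (d + 2).choose 2) →
          GeneralMember (forms w P d) (SmoothMember w P)) := by
  classical
  obtain ⟨A, hA⟩ : ∃ A, A = ∑ i, (w i + 1).choose 2 := ⟨_, rfl⟩
  have hAw : ∀ v : Fin n → ℕ, Aw v = ∑ i, (v i + 1).choose 2 := fun v => rfl
  have hlow1 : Slg m w ≤ Sge m w := Slg_le_Sge m w w fun i => Nat.le_succ _
  have hD1 : (m + 1) * (Slg m w + 2 * m + 1) + 1 ≤ D - 1 := by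
    have : (m + 1) * (Slg m w + 2 * m + 1) ≤ (m + 1) * (Sge m w + 2 * m + 1) :=
      Nat.mul_le_mul_left _ (by omega)
    omega
  -- nonspeciality
  obtain ⟨F0, hF0, hF0'⟩ := exp_quad K m hm w (D - 1) hD1
  have key : ∀ d, D ≤ d → (∀ i, A + w i + 1 ≤ (d + 2).choose 2) → 0 < n →
      ∃ F : MvPolynomial (Fin n × Fin 2) ℚ, F ≠ 0 ∧ ∀ P : Fin n → Fin 2 → K,
        aeval (fun ij : Fin n × Fin 2 => P ij.1 ij.2) F ≠ 0 →
          GeneralMember (forms w P d) (SmoothMember w P) := by
    intro d hd hAd hn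
    obtain ⟨e, rfl⟩ : ∃ e, d = e + 1 := ⟨d - 1, by omega⟩
    have hup1 : ∀ k, (m + 1) * (Slg m (Function.update w k (w k + 1)) + 2 * m + 1) + 1 ≤ D := by
      intro k
      have h1 : Slg m (Function.update w k (w k + 1)) ≤ Sge m w := by
        refine Slg_le_Sge m w _ fun i => ?_
        by_cases hi : i = k
        · subst hi
          rw [Function.update_self]
        · rw [Function.update_of_ne hi]
          omega
      have : (m + 1) * (Slg m (Function.update w k (w k + 1)) + 2 * m + 1) ≤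
        (m + 1) * (Sge m w + 2 * m + 1) := Nat.mul_le_mul_left _ (by omega)
      omega
    have hlo1 : (m + 1) * (Slg m (fun i => w i - 1) + 2 * m + 1) + 1 ≤ D - 1 := by
      have h1 : Slg m (fun i => w i - 1) ≤ Slg m w := Slg_mono le_rfl w _ fun i => Nat.sub_le _ _
      have : (m + 1) * (Slg m (fun i => w i - 1) + 2 * m + 1) ≤
        (m + 1) * (Slg m w + 2 * m + 1) := Nat.mul_le_mul_left _ (by omega)
      omega
    have s1 : ∀ {L : Type} [Field L] {P : Fin n → Fin 2 → L} (k : Fin n),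
        H932R3.ExpDim L (Function.update w k (w k + 1)) P (e + 1) →
        Function.Surjective (ev (Function.update w k (w k + 1)) P (e + 1)) := by
      intro L _ P k h
      refine surj_of_ind ?_
      have h3 : Module.finrank L ↥(forms (Function.update w k (w k + 1)) P (e + 1)) =
        (e + 1 + 2).choose 2 -
          ∑ i, (Function.update w k (w k + 1) i + 1).choose 2 := h
      have h4 := hAd k
      rw [Aw_up, ← hA] at h3 ⊢
      omega
    have s2 : ∀ {L : Type} [Field L] {P : Fin n → Fin 2 → L},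
        H932R3.ExpDim L w P (e + 1) → Function.Surjective (ev w P (e + 1)) := by
      intro L _ P h
      refine surj_of_ind ?_
      have h3 : Module.finrank L ↥(forms w P (e + 1)) =
        (e + 1 + 2).choose 2 - ∑ i, (w i + 1).choose 2 := h
      have h4 := hAd ⟨0, hn⟩
      rw [← hA] at h3 ⊢
      omega
    have s3 : ∀ {L : Type} [Field L] {P : Fin n → Fin 2 → L},
        H932R3.ExpDim L (fun i => w i - 1) P e →
          Function.Surjective (ev (fun i => w i - 1) P e) := by
      intro L _ P h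
      refine surj_of_ind ?_
      have h3 : Module.finrank L ↥(forms (fun i => w i - 1) P e) =
        (e + 2).choose 2 - ∑ i, (w i - 1 + 1).choose 2 := h
      have h4 := hAd ⟨0, hn⟩
      have h5 := Aw_low w
      have h6 : (e + 1 + 2).choose 2 = (e + 2) + (e + 2).choose 2 := by
        rw [show e + 1 + 2 = (e + 2) + 1 from rfl, Nat.choose_succ_succ' (e + 2) 1,
          Nat.choose_one_right]
      have h7 : ∑ i, (w i - 1 + 1).choose 2 ≤ (e + 2).choose 2 := by
        rcases Nat.lt_or_ge (∑ i, w i) (e + 2) with h8 | h8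
        · exact le_trans (choose_le_sum w) (Nat.choose_le_choose 2 h8.le)
        · omega
      omega
    have f1 : ∀ (L : Type) [Field L] [CharZero L] (k : Fin n), ∃ F : MvPolynomial (Fin n × Fin 2) ℚ,
        F ≠ 0 ∧ ∀ P : Fin n → Fin 2 → L,
          aeval (fun ij : Fin n × Fin 2 => P ij.1 ij.2) F ≠ 0 →
            H932R3.ExpDim L (Function.update w k (w k + 1)) P (e + 1) := by
      intro L _ _ k
      obtain ⟨F, hF, hF'⟩ := exp_quad L m hm (Function.update w k (w k + 1)) D (hup1 k)
      exact ⟨F, hF, fun P hP => hF' P hP (e + 1) (Or.inl hd)⟩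
    choose G hG hG' using f1 K
    obtain ⟨F, hF, hF'⟩ := open_main (K := K) (n := n) (e := e) (w := w)
      (fun L _ _ P hP => by
        have hne : ∀ F : MvPolynomial (Fin n × Fin 2) ℚ, F ≠ 0 →
            aeval (fun ij : Fin n × Fin 2 => P ij.1 ij.2) F ≠ 0 :=
          fun F hF h0 => hF (hP.eq_zero_of_aeval_eq_zero F h0)
        refine ⟨fun k => ?_, ?_, ?_⟩
        · obtain ⟨F, hF, hF'⟩ := f1 L k
          exact s1 k (hF' P (hne F hF))
        · obtain ⟨F, hF, hF'⟩ := exp_quad L m hm w (D - 1) hD1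
          exact s2 (hF' P (hne F hF) (e + 1) (Or.inl (by omega)))
        · obtain ⟨F, hF, hF'⟩ := exp_quad L m hm (fun i => w i - 1) (D - 1) hlo1
          exact s3 (hF' P (hne F hF) e (Or.inl (by omega))))
      ⟨F0 * ∏ k, G k, mul_ne_zero hF0 (Finset.prod_ne_zero_iff.2 fun k _ => hG k),
        fun P hP => by
          rw [map_mul, map_prod] at hP
          refine ⟨fun k => s1 k (hG' k P ?_),
            s2 (hF0' P (left_ne_zero_of_mul hP) (e + 1) (Or.inl (by omega)))⟩
          exact Finset.prod_ne_zero_iff.1 (right_ne_zero_of_mul hP) k (Finset.mem_univ k)⟩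
    exact ⟨F, hF, fun P hP => (hF' P hP).2⟩
  have key2 : ∀ d : Fin (A + 1), ∃ F : MvPolynomial (Fin n × Fin 2) ℚ, F ≠ 0 ∧
      ∀ P : Fin n → Fin 2 → K, aeval (fun ij : Fin n × Fin 2 => P ij.1 ij.2) F ≠ 0 →
        (D ≤ (d : ℕ) ∧ (∀ i, A + w i + 1 ≤ ((d : ℕ) + 2).choose 2) ∧ 0 < n) →
          GeneralMember (forms w P d) (SmoothMember w P) := by
    intro d
    by_cases h : D ≤ (d : ℕ) ∧ (∀ i, A + w i + 1 ≤ ((d : ℕ) + 2).choose 2) ∧ 0 < n
    · obtain ⟨F, hF, hF'⟩ := key d h.1 h.2.1 h.2.2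
      exact ⟨F, hF, fun P hP _ => hF' P hP⟩
    · exact ⟨1, one_ne_zero, fun P _ h' => absurd h' h⟩
  choose G hG hG' using key2
  refine ⟨F0 * disc ℚ n * ∏ x, G x, mul_ne_zero (mul_ne_zero hF0 (disc_ne ℚ n))
    (Finset.prod_ne_zero_iff.2 fun x _ => hG x), fun P hP d hd => ?_⟩
  rw [map_mul, map_mul, map_prod] at hP
  have hP0 := left_ne_zero_of_mul (left_ne_zero_of_mul hP)
  have hPd := inj_of_disc' (right_ne_zero_of_mul (left_ne_zero_of_mul hP))
  refine ⟨hF0' P hP0 d (Or.inl (by omega)), fun hAd => ?_⟩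
  rcases le_or_gt A ((d + 1).choose 2) with h | h
  · refine general_smooth' hPd (by omega) (hF0' P hP0 (d - 1) (Or.inl (by omega))) ?_
    rw [← hA]
    exact h
  · have hn : 0 < n := by
      rcases Nat.eq_zero_or_pos n with h0 | h0
      · subst h0
        rw [hA] at h
        simp at h
      · exact h0
    have hdA : d < A + 1 := by
      have h1 : ∀ z : ℕ, z ≤ (z + 1).choose 2 := by
        intro z
        rw [Nat.choose_succ_succ' z 1, Nat.choose_one_right]
        exact Nat.le_add_right _ _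
      have := h1 d
      omega
    rw [← hA] at hAd
    exact hG' ⟨d, hdA⟩ P (Finset.prod_ne_zero_iff.1 (right_ne_zero_of_mul hP) ⟨d, hdA⟩
      (Finset.mem_univ _)) ⟨hd, hAd, hn⟩

end Pool.Agent.W611
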